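import Pool.Agent.Lib.MP_e7c4c5_co.Sub.Code

/-!
Rosenfeld counting: bounded degree gives a nonrepetitive colouring.
-/

set_option autoImplicit false

namespace Pool.Agent.Lib.MP_e7c4c5_co.Sub

variable {V : Type}

/-- Admissible paths. -/
def Ros_Adm (R : V → V → Prop) (t : ℕ) (u : ℕ → V) : Prop :=
  0 < t ∧ (∀ j, j + 1 < 2 * t → R (u j) (u (j + 1)) ∧ R (u (j + 1)) (u j)) ∧
    ∀ i < 2 * t, ∀ j < 2 * t, u i = u j → i = j

/-- No repetitive admissible path inside `S`. -/
def Ros_NR (R : V → V → Prop) {C : Type} (S : Finset V) (f : V → C) : Prop :=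
  ∀ t u, Ros_Adm R t u → (∀ j < 2 * t, u j ∈ S) → ∃ i < t, f (u i) ≠ f (u (t + i))

open Classical in
/-- Colourings that vanish outside `S'` and are nonrepetitive inside `S`. -/
noncomputable def Ros_G [Fintype V] (R : V → V → Prop) {C : Type} [Fintype C] (z : C)
    (S' S : Finset V) : Finset (V → C) :=
  Finset.univ.filter fun f => (∀ x, x ∉ S' → f x = z) ∧ Ros_NR R S f

theorem Ros_mem [Fintype V] {R : V → V → Prop} {C : Type} [Fintype C] {z : C} {S' S : Finset V}
    {f : V → C} : f ∈ Ros_G R z S' S ↔ (∀ x, x ∉ S' → f x = z) ∧ Ros_NR R S f := by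
  simp [Ros_G]

theorem Ros_NR_congr {R : V → V → Prop} {C : Type} {S T : Finset V} {f g : V → C}
    (h : Ros_NR R S f) (hT : T ⊆ S) (hg : ∀ x ∈ T, g x = f x) : Ros_NR R T g := by
  intro t u hu hS
  obtain ⟨i, hi, hne⟩ := h t u hu fun j hj => hT (hS j hj)
  refine ⟨i, hi, ?_⟩
  rwa [hg _ (hS i (by omega)), hg _ (hS (t + i) (by omega))]

theorem Ros_ext [Fintype V] [DecidableEq V] (R : V → V → Prop) {C : Type} [Fintype C] (z : C)
    {S : Finset V} {v : V} (hv : v ∉ S) :
    Fintype.card C * (Ros_G R z S S).card ≤ (Ros_G R z (insert v S) S).card := by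
  rw [← Finset.card_univ, ← Finset.card_product]
  refine Finset.card_le_card_of_injOn (fun p => Function.update p.2 v p.1) ?_ ?_
  · rintro ⟨c, g⟩ hp
    have hg := Ros_mem.1 (Finset.mem_product.1 (Finset.mem_coe.1 hp)).2
    refine Finset.mem_coe.2 (Ros_mem.2 ⟨fun x hx => ?_, Ros_NR_congr hg.2 Finset.Subset.rfl ?_⟩)
    · rw [Finset.mem_insert, not_or] at hx
      exact (Function.update_of_ne hx.1 _ _).trans (hg.1 x hx.2)
    · intro x hx
      exact Function.update_of_ne (ne_of_mem_of_not_mem hx hv) _ _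
  · rintro ⟨c, g⟩ hp ⟨c', g'⟩ hp' e
    have hg := Ros_mem.1 (Finset.mem_product.1 (Finset.mem_coe.1 hp)).2
    have hg' := Ros_mem.1 (Finset.mem_product.1 (Finset.mem_coe.1 hp')).2
    refine Prod.ext ?_ (funext fun x => ?_)
    · simpa using congrFun e v
    · by_cases hx : x = v
      · rw [hx]
        exact (hg.1 v hv).trans (hg'.1 v hv).symm
      · simpa [Function.update_of_ne hx] using congrFun e x

theorem Ros_event [Fintype V] [DecidableEq V] (R : V → V → Prop) {C : Type} [Fintype C] (z : C)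
    {S : Finset V} {v : V} (hv : v ∉ S) {t : ℕ} (g h : ℕ → V) (E : Finset (V → C))
    (hE : ∀ f ∈ E, f ∈ Ros_G R z (insert v S) S ∧ ∀ k < t, f (g k) = f (h k))
    (hg : ∀ k < t, ∀ k' < t, g k = g k' → k = k') (hgS : ∀ k < t, g k ∈ insert v S)
    (hgv : ∃ k < t, g k = v) (hh : ∀ k < t, h k ∈ insert v S ∧ ∀ k' < t, g k' ≠ h k) :
    ∃ T ⊆ S, T.card + t = S.card + 1 ∧ E.card ≤ (Ros_G R z T T).card := by
  have hsub : (Finset.range t).image g ⊆ insert v S := by
    intro x hx
    obtain ⟨k, hk, rfl⟩ := Finset.mem_image.1 hx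
    exact hgS k (Finset.mem_range.1 hk)
  have hT : insert v S \ (Finset.range t).image g ⊆ S := by
    intro x hx
    obtain ⟨h1, h2⟩ := Finset.mem_sdiff.1 hx
    rcases Finset.mem_insert.1 h1 with rfl | h1
    · obtain ⟨k, hk, e⟩ := hgv
      exact absurd (Finset.mem_image.2 ⟨k, Finset.mem_range.2 hk, e⟩) h2
    · exact h1
  refine ⟨insert v S \ (Finset.range t).image g, hT, ?_, ?_⟩
  · have h1 := Finset.card_sdiff_add_card_eq_card hsub
    rw [Finset.card_image_of_injOn fun k hk k' hk' e =>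
      hg k (Finset.mem_range.1 (Finset.mem_coe.1 hk)) k'
        (Finset.mem_range.1 (Finset.mem_coe.1 hk')) e,
      Finset.card_range, Finset.card_insert_of_notMem hv] at h1
    exact h1
  · refine Finset.card_le_card_of_injOn
      (fun f x => if x ∈ insert v S \ (Finset.range t).image g then f x else z) ?_ ?_
    · intro f hf
      have h1 := Ros_mem.1 (hE f (Finset.mem_coe.1 hf)).1
      exact Finset.mem_coe.2 (Ros_mem.2 ⟨fun x hx => if_neg hx,
        Ros_NR_congr h1.2 hT fun x hx => if_pos hx⟩)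
    · intro f hf f' hf' e
      obtain ⟨h1, h2⟩ := hE f (Finset.mem_coe.1 hf)
      obtain ⟨h1', h2'⟩ := hE f' (Finset.mem_coe.1 hf')
      have key : ∀ x ∈ insert v S \ (Finset.range t).image g, f x = f' x := by
        intro x hx
        have := congrFun e x
        simpa only [if_pos hx] using this
      funext x
      by_cases a1 : x ∈ insert v S
      · by_cases a2 : x ∈ (Finset.range t).image g
        · obtain ⟨k, hk, rfl⟩ := Finset.mem_image.1 a2
          rw [Finset.mem_range] at hk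
          rw [h2 k hk, h2' k hk]
          refine key _ (Finset.mem_sdiff.2 ⟨(hh k hk).1, fun a3 => ?_⟩)
          obtain ⟨k', hk', e'⟩ := Finset.mem_image.1 a3
          exact (hh k hk).2 k' (Finset.mem_range.1 hk') e'
        · exact key x (Finset.mem_sdiff.2 ⟨a1, a2⟩)
      · rw [(Ros_mem.1 h1).1 x a1, (Ros_mem.1 h1').1 x a1]

/-- A repetitive admissible path through `v`. -/
def Ros_Bad {C : Type} (S' : Finset V) (v : V) (t : ℕ) (u : ℕ → V)
    (f : V → C) : Prop :=
  (∀ i < 2 * t, ∀ j < 2 * t, u i = u j → i = j) ∧ (∀ j < 2 * t, u j ∈ S') ∧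
    (∃ i < 2 * t, u i = v) ∧ ∀ i < t, f (u i) = f (u (t + i))

theorem Ros_event2 [Fintype V] [DecidableEq V] (R : V → V → Prop) {C : Type} [Fintype C] (z : C)
    {S : Finset V} {v : V} (hv : v ∉ S) {t : ℕ} (u : ℕ → V) (E : Finset (V → C))
    (hE : ∀ f ∈ E, f ∈ Ros_G R z (insert v S) S ∧ Ros_Bad (insert v S) v t u f) :
    E = ∅ ∨ ∃ T ⊆ S, T.card + t = S.card + 1 ∧ E.card ≤ (Ros_G R z T T).card := by
  rcases E.eq_empty_or_nonempty with h | ⟨f0, h0⟩
  · exact Or.inl h
  obtain ⟨hi, hS, ⟨i, hit, hiv⟩, -⟩ := (hE f0 h0).2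
  right
  by_cases h : i < t
  · refine Ros_event R z hv u (fun k => u (t + k)) E (fun f hf => ⟨(hE f hf).1, (hE f hf).2.2.2.2⟩)
      (fun k hk k' hk' e => hi k (by omega) k' (by omega) e) (fun k hk => hS k (by omega))
      ⟨i, h, hiv⟩ fun k hk => ⟨hS _ (by omega), fun k' hk' e => ?_⟩
    have := hi _ (by omega) _ (by omega) e
    omega
  · refine Ros_event R z hv (fun k => u (t + k)) u E
      (fun f hf => ⟨(hE f hf).1, fun k hk => ((hE f hf).2.2.2.2 k hk).symm⟩)
      (fun k hk k' hk' e => ?_) (fun k hk => hS _ (by omega))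
      ⟨i - t, by omega, ?_⟩ fun k hk => ⟨hS _ (by omega), fun k' hk' e => ?_⟩
    · have := hi _ (by omega) _ (by omega) e
      omega
    · rwa [Nat.add_sub_cancel' (by omega)]
    · have := hi _ (by omega) _ (by omega) e
      omega

theorem Ros_iter [DecidableEq V] (G : Finset V → ℕ) (β n : ℕ)
    (H : ∀ S : Finset V, S.card < n → ∀ v, v ∉ S → β * G S ≤ G (insert v S)) (T : Finset V)
    (j : ℕ) : ∀ S, T ⊆ S → T.card + j = S.card → S.card ≤ n → β ^ j * G T ≤ G S := by
  induction j with
  | zero =>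
    intro S hT hc _
    rw [Finset.eq_of_subset_of_card_le hT (by omega), pow_zero, one_mul]
  | succ j ih =>
    intro S hT hc hn
    obtain ⟨v, hv, hvT⟩ := Finset.exists_mem_notMem_of_card_lt_card (s := T) (t := S) (by omega)
    have h1 := Finset.card_erase_add_one hv
    have h2 := ih (S.erase v) (fun x hx => Finset.mem_erase.2 ⟨fun e => hvT (e ▸ hx), hT hx⟩)
      (by omega) (by omega)
    have h3 := H (S.erase v) (by omega) v (Finset.notMem_erase v S)
    rw [Finset.insert_erase hv] at h3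
    calc β ^ (j + 1) * G T = β * (β ^ j * G T) := by ring
      _ ≤ β * G (S.erase v) := Nat.mul_le_mul_left _ h2
      _ ≤ G S := h3

theorem Ros_sum (B : ℕ → ℕ) (K : ℕ) (h : ∀ s, 2 ^ s * B s ≤ 2 * (s + 1) * K) (N : ℕ) :
    ∑ s ∈ Finset.range N, B s ≤ 8 * K := by
  have key : ∀ N, 2 ^ N * ∑ s ∈ Finset.range N, B s + 4 * (N + 2) * K ≤ 2 ^ N * (8 * K) := by
    intro N
    induction N with
    | zero => simp
    | succ N ih =>
      have := h N
      rw [Finset.sum_range_succ, pow_succ]
      nlinarith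
  exact Nat.le_of_mul_le_mul_left (le_trans (Nat.le_add_right _ _) (key N)) (Nat.two_pow_pos N)

/-- The path described by a position and two codes. -/
def Ros_path {M a : ℕ} (hM : 0 < M) (nb : V → Fin M → V) (v : V)
    (p : Fin a × (Fin a → Fin M) × (Fin a → Fin M)) (j : ℕ) : V :=
  if (p.1 : ℕ) ≤ j then decode nb v (ext hM p.2.1) (j - p.1)
  else decode nb v (ext hM p.2.2) (p.1 - j)

theorem Ros_code {R : V → V → Prop} {M : ℕ} (hM : 0 < M) {nb : V → Fin M → V}
    (hnb : ∀ v u, R v u → ∃ i, nb v i = u) {t : ℕ} {u : ℕ → V} (hu : Ros_Adm R t u) {i : ℕ}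
    (hi : i < 2 * t) : ∃ p : Fin (2 * t) × (Fin (2 * t) → Fin M) × (Fin (2 * t) → Fin M),
      ∀ j < 2 * t, Ros_path hM nb (u i) p j = u j := by
  obtain ⟨c1, h1⟩ := exists_code hM hnb (fun j => u (i + j)) (2 * t - 1 - i) (2 * t) (by omega)
    fun j hj => (hu.2.1 (i + j) (by omega)).1
  obtain ⟨c2, h2⟩ := exists_code hM hnb (fun j => u (i - j)) i (2 * t) hi.le fun j hj => by
    have := (hu.2.1 (i - (j + 1)) (by omega)).2
    rwa [show i - (j + 1) + 1 = i - j by omega] at this
  refine ⟨⟨⟨i, hi⟩, c1, c2⟩, fun j hj => ?_⟩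
  unfold Ros_path
  dsimp only
  split_ifs with h
  · have := h1 (j - i) (by omega)
    rwa [Nat.add_sub_cancel' h] at this
  · have := h2 (i - j) (by omega)
    rwa [show i - (i - j) = j by omega] at this

theorem Ros_step [Fintype V] [DecidableEq V] (R : V → V → Prop) (M : ℕ) (hM : 0 < M)
    (hR : ∀ v, {u | R v u}.ncard ≤ M) (z : Fin (10 * M ^ 4)) (n : ℕ) :
    ∀ S : Finset V, S.card < n → ∀ v, v ∉ S →
      2 * M ^ 4 * (Ros_G R z S S).card ≤ (Ros_G R z (insert v S) (insert v S)).card := by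
  classical
  obtain ⟨nb, hnb⟩ := exists_nb R hR
  induction n with
  | zero => intro S h; omega
  | succ n ih =>
    intro S hS v hv
    let Ev : (s : ℕ) → Fin (2 * (s + 1)) × (Fin (2 * (s + 1)) → Fin M) ×
        (Fin (2 * (s + 1)) → Fin M) → Finset (V → Fin (10 * M ^ 4)) := fun s p =>
      (Ros_G R z (insert v S) S).filter
        (Ros_Bad (insert v S) v (s + 1) (Ros_path hM nb v p))
    have h1 : ∀ s p, (2 * M ^ 4) ^ s * (Ev s p).card ≤ (Ros_G R z S S).card := by
      intro s p
      rcases Ros_event2 R z hv (Ros_path hM nb v p) (Ev s p) (fun f hf => Finset.mem_filter.1 hf)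
        with h | ⟨T, hT, hc, h⟩
      · simp [h]
      · exact (Nat.mul_le_mul_left _ h).trans (Ros_iter (fun S => (Ros_G R z S S).card) _ n ih T s S
          hT (by omega) (by omega))
    have h2 : ∀ s, 2 ^ s * (Finset.univ.biUnion (Ev s)).card ≤
        2 * (s + 1) * (M ^ 4 * (Ros_G R z S S).card) := by
      intro s
      have a1 : (2 * M ^ 4) ^ s * (Finset.univ.biUnion (Ev s)).card ≤
          2 * (s + 1) * (M ^ (2 * (s + 1)) * M ^ (2 * (s + 1))) * (Ros_G R z S S).card := by
        refine (Nat.mul_le_mul_left _ Finset.card_biUnion_le).trans ?_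
        rw [Finset.mul_sum]
        refine (Finset.sum_le_card_nsmul _ _ _ fun p _ => h1 s p).trans ?_
        simp
      refine Nat.le_of_mul_le_mul_left (c := (M ^ 4) ^ s) ?_ (by positivity)
      calc (M ^ 4) ^ s * (2 ^ s * (Finset.univ.biUnion (Ev s)).card)
          = (2 * M ^ 4) ^ s * (Finset.univ.biUnion (Ev s)).card := by ring
        _ ≤ _ := a1
        _ = _ := by ring
    have h3 := Ros_sum _ _ h2 (Fintype.card V)
    have h4 : Ros_G R z (insert v S) S ⊆ Ros_G R z (insert v S) (insert v S) ∪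
        (Finset.range (Fintype.card V)).biUnion fun s => Finset.univ.biUnion (Ev s) := by
      intro f hf
      by_cases hg : Ros_NR R (insert v S) f
      · exact Finset.mem_union_left _ (Ros_mem.2 ⟨(Ros_mem.1 hf).1, hg⟩)
      refine Finset.mem_union_right _ ?_
      unfold Ros_NR at hg
      push Not at hg
      obtain ⟨t, u, hu, hin, hrep⟩ := hg
      have hvu : ∃ i < 2 * t, u i = v := by
        by_contra hn
        obtain ⟨i, hi, hne⟩ := (Ros_mem.1 hf).2 t u hu fun j hj =>
          (Finset.mem_insert.1 (hin j hj)).resolve_left fun e => hn ⟨j, hj, e⟩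
        exact hne (hrep i hi)
      obtain ⟨i, hi, rfl⟩ := hvu
      obtain ⟨p, hp⟩ := Ros_code hM hnb hu hi
      have ht : 2 * t ≤ Fintype.card V := by
        have := Fintype.card_le_of_injective (fun k : Fin (2 * t) => u k)
          fun k k' e => Fin.ext (hu.2.2 k k.2 k' k'.2 e)
        rwa [Fintype.card_fin] at this
      obtain ⟨s, rfl⟩ : ∃ s, t = s + 1 := ⟨t - 1, by have := hu.1; omega⟩
      refine Finset.mem_biUnion.2 ⟨s, Finset.mem_range.2 (by omega), Finset.mem_biUnion.2
        ⟨p, Finset.mem_univ _, Finset.mem_filter.2 ⟨hf, fun a ha b hb e => ?_, fun a ha => ?_,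
          ⟨i, hi, hp i hi⟩, fun a ha => ?_⟩⟩⟩
      · rw [hp a ha, hp b hb] at e
        exact hu.2.2 a ha b hb e
      · rw [hp a ha]
        exact hin a ha
      · rw [hp a (by omega), hp _ (by omega)]
        exact hrep a ha
    have h5 := (Finset.card_le_card h4).trans ((Finset.card_union_le _ _).trans
      (Nat.add_le_add_left (Finset.card_biUnion_le.trans h3) _))
    have h6 := Ros_ext R z hv
    rw [Fintype.card_fin] at h6
    nlinarith

/-- Sketch (Rosenfeld).  `q = 10 M^4`, `β = 2 M^4`.  Call `(t, u)` admissible if `0 < t`,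
consecutive terms are related both ways and `u` is injective on `[0, 2t)`.  For a finset `S` let
`Good S` be the finset of `f : V → Fin q` that vanish outside `S` and such that no admissible
`(t,u)` with all `u j ∈ S` (`j < 2t`) has `f (u i) = f (u (t+i))` for all `i < t`.  Claim, by strong
induction on `|S|`: `β |Good S| ≤ |Good (insert v S)|` for `v ∉ S`; by iteration
`β^j |Good T| ≤ |Good S|` if `T ⊆ S` and `|S \ T| = j`.  The functions that vanish outside
`insert v S` and whose restriction to `S` is good are `q |Good S|` many (`Function.update`).  Such a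
function that is not good has a repetitive admissible `(t,u)` inside `insert v S` with `u i = v` for
some `i < 2t`, `t ≤ |V|`.  By `exists_nb`, `exists_code` the values `u j`, `j < 2t`, are determined
by `(t, i)` and two codes `Fin (2t) → Fin M` (forwards from `i`, backwards from `i`), so there are at
most `2t M^(4t)` events for each `t`.  For one event let `Hf` be the half (image of `[0,t)` or of
`[t,2t)`) that contains `v` and `T = insert v S \ Hf ⊆ S`, `|S \ T| = t - 1`; restriction to `T` is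
injective on the event (values on `Hf` are copied from the other half, which lies in `T`) and lands
in `Good T`, so the event has at most `|Good S| / β^(t-1)` elements.  Since
`∑ 2t M^(4t) / β^(t-1) = M^4 ∑ 2t / 2^(t-1) ≤ 8 M^4`, we get `|Good (insert v S)| ≥ (q - 8M^4) |Good S|`.
Finally `|Good ∅| = 1`, so `Good univ` is not empty. -/
theorem rosenfeld [Fintype V] (R : V → V → Prop) (M : ℕ) (hM : 0 < M)
    (hR : ∀ v, {u | R v u}.ncard ≤ M) :
    ∃ ψ : V → Fin (10 * M ^ 4), ∀ (t : ℕ) (u : ℕ → V), 0 < t →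
      (∀ j, j + 1 < 2 * t → R (u j) (u (j + 1)) ∧ R (u (j + 1)) (u j)) →
      (∀ i < 2 * t, ∀ j < 2 * t, u i = u j → i = j) → ∃ i < t, ψ (u i) ≠ ψ (u (t + i)) := by
  classical
  let z : Fin (10 * M ^ 4) := ⟨0, by positivity⟩
  have h1 := Ros_iter (fun S => (Ros_G R z S S).card) _ _
    (Ros_step R M hM hR z (Fintype.card V)) ∅ (Fintype.card V) Finset.univ
    (Finset.empty_subset _) (by simp) (by simp)
  have h2 : 0 < (Ros_G R z ∅ ∅).card := Finset.card_pos.2 ⟨fun _ => z, Ros_mem.2
    ⟨fun _ _ => rfl, fun t u hu h => absurd (h 0 (by have := hu.1; omega)) (Finset.notMem_empty _)⟩⟩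
  obtain ⟨ψ, hψ⟩ := Finset.card_pos.1 (lt_of_lt_of_le (by positivity) h1)
  exact ⟨ψ, fun t u a b c => (Ros_mem.1 hψ).2 t u ⟨a, b, c⟩ fun _ _ => Finset.mem_univ _⟩

end Pool.Agent.Lib.MP_e7c4c5_co.Sub
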