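import Pool.Agent.Lib.MP_e7c4c5_co.Sub.Draw

/-!
Random sampling: from covers to the sparsity property.
-/

set_option autoImplicit false

namespace Pool.Agent.Lib.MP_e7c4c5_co.Sub

variable {V : Type}

open Classical in
theorem Sample_count [Fintype V] {α : Type} [Fintype α] (P : (V → α) → Prop) {a b : V}
    (hab : a ≠ b) (hP : ∀ f c, P (Function.update f b c) ↔ P f) :
    (Finset.univ.filter fun f => P f ∧ f b = f a).card * Fintype.card α =
      (Finset.univ.filter P).card := by
  rw [← Finset.card_univ, ← Finset.card_product]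
  refine Finset.card_nbij' (fun p => Function.update p.1 b p.2)
    (fun g => (Function.update g b (g a), g b)) ?_ ?_ ?_ ?_
  · intro p hp
    have h1 := (Finset.mem_filter.1 (Finset.mem_product.1 hp).1).2
    exact Finset.mem_filter.2 ⟨Finset.mem_univ _, (hP _ _).2 h1.1⟩
  · intro g hg
    have h1 := (Finset.mem_filter.1 hg).2
    refine Finset.mem_product.2 ⟨Finset.mem_filter.2 ⟨Finset.mem_univ _, (hP _ _).2 h1, ?_⟩,
      Finset.mem_univ _⟩
    simp [hab]
  · intro p hp
    have h1 := (Finset.mem_filter.1 (Finset.mem_product.1 hp).1).2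
    refine Prod.ext ?_ ?_
    · simp [hab, ← h1.2]
    · simp
  · intro g _
    simp

open Classical in
theorem Sample_good [Fintype V] {κ : ℕ} (hκ : 1 ≤ κ) {a b : V} (hab : a ≠ b) (D : Finset V)
    (hD : D.card ≤ κ) : Fintype.card (V → Fin (2 * κ)) ≤ 4 * κ * (Finset.univ.filter
      fun f : V → Fin (2 * κ) => f b = f a ∧ ∀ z ∈ D, f z = f a → z = a ∨ z = b).card := by
  have h1 := Sample_count (α := Fin (2 * κ)) (fun _ => True) hab fun _ _ => Iff.rfl
  simp only [true_and, Finset.filter_true, Finset.card_univ, Fintype.card_fin] at h1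
  have h2 : ∀ z ∈ D.filter (fun z => z ≠ a ∧ z ≠ b), (Finset.univ.filter
      fun f : V → Fin (2 * κ) => f b = f a ∧ f z = f a).card * (2 * κ) =
      (Finset.univ.filter fun f : V → Fin (2 * κ) => f b = f a).card := by
    intro z hz
    obtain ⟨h3, h4⟩ := (Finset.mem_filter.1 hz).2
    have h5 := Sample_count (α := Fin (2 * κ)) (fun f => f b = f a) h3.symm fun f c => by
      simp [h3.symm, h4.symm]
    rw [Fintype.card_fin] at h5
    convert h5
  have h3 : (Finset.univ.filter fun f : V → Fin (2 * κ) => f b = f a) ⊆ (Finset.univ.filter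
      fun f : V → Fin (2 * κ) => f b = f a ∧ ∀ z ∈ D, f z = f a → z = a ∨ z = b) ∪
      (D.filter fun z => z ≠ a ∧ z ≠ b).biUnion fun z => Finset.univ.filter
        fun f : V → Fin (2 * κ) => f b = f a ∧ f z = f a := by
    intro f hf
    have h4 := (Finset.mem_filter.1 hf).2
    by_cases h5 : ∀ z ∈ D, f z = f a → z = a ∨ z = b
    · exact Finset.mem_union_left _ (Finset.mem_filter.2 ⟨Finset.mem_univ _, h4, h5⟩)
    · push Not at h5
      obtain ⟨z, h6, h7, h8⟩ := h5
      exact Finset.mem_union_right _ (Finset.mem_biUnion.2 ⟨z, Finset.mem_filter.2 ⟨h6, h8⟩,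
        Finset.mem_filter.2 ⟨Finset.mem_univ _, h4, h7⟩⟩)
  have h4 := (Finset.card_le_card h3).trans ((Finset.card_union_le _ _).trans
    (Nat.add_le_add_left Finset.card_biUnion_le _))
  have h5 := Nat.mul_le_mul_right (2 * κ) h4
  rw [add_mul, Finset.sum_mul, Finset.sum_congr rfl h2, Finset.sum_const, smul_eq_mul] at h5
  have h6 := Nat.mul_le_mul_right (Finset.univ.filter fun f : V → Fin (2 * κ) => f b = f a).card
    ((Finset.card_filter_le D fun z => z ≠ a ∧ z ≠ b).trans hD)
  have h7 : Fintype.card (V → Fin (2 * κ)) =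
      (Finset.univ.filter fun f : V → Fin (2 * κ) => f b = f a).card * (2 * κ) := by
    convert h1.symm
  rw [h7]
  nlinarith

/-- Sketch: if `κ = 0` take `S = X`, but then the bound reads `0`, so `κ ≥ 1` is assumed.  Let
`N = 2 κ` and count pairs `(f, e)` with `f : V → Fin N`, `e ∈ F` good for `f`, meaning
`f e.1 = f e.2` and `f z ≠ f e.1` for all `z ∈ C e` other than `e.1`, `e.2`.  For fixed `e` there are
`N^(n-1)` functions with `f e.1 = f e.2` and for each `z` only `N^(n-2)` of them have also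
`f z = f e.1`, so at least `N^(n-1) / 2` functions are good.  For fixed `f` and colour `i` the good
pairs of colour `i` satisfy the hypothesis with `S = X.filter (f · = i)`, so there are at most
`8 |X|` good pairs.  Hence `|F| N^(n-1) / 2 ≤ 8 |X| N^n`. -/
theorem sample [Fintype V] (κ : ℕ) (hκ : 1 ≤ κ) (X : Finset V) (F : Finset (V × V))
    (C : V × V → Finset V) (hF : ∀ e ∈ F, e.1 ∈ X ∧ e.2 ∈ X ∧ e.1 ≠ e.2)
    (hC : ∀ e ∈ F, (C e).card ≤ κ)
    (h : ∀ (S : Finset V) (F' : Finset (V × V)), S ⊆ X → F' ⊆ F →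
        (∀ e ∈ F', e.1 ∈ S ∧ e.2 ∈ S ∧ ∀ z ∈ C e, z ∈ S → z = e.1 ∨ z = e.2) →
        F'.card ≤ 8 * S.card) :
    F.card ≤ 32 * κ * X.card := by
  classical
  let good : V × V → (V → Fin (2 * κ)) → Prop := fun e f =>
    f e.2 = f e.1 ∧ ∀ z ∈ C e, f z = f e.1 → z = e.1 ∨ z = e.2
  have h1 : ∀ e ∈ F, Fintype.card (V → Fin (2 * κ)) ≤
      4 * κ * (Finset.univ.filter (good e)).card := by
    intro e he
    convert Sample_good hκ (hF e he).2.2 (C e) (hC e he)
  have h2 : ∀ f : V → Fin (2 * κ), (F.filter fun e => good e f).card ≤ 8 * X.card := by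
    intro f
    rw [Finset.card_eq_sum_card_fiberwise (f := fun e => f e.1) (t := Finset.univ)
      (fun _ _ => Finset.mem_univ _), Finset.card_eq_sum_card_fiberwise (s := X) (f := f)
      (t := Finset.univ) (fun _ _ => Finset.mem_univ _), Finset.mul_sum]
    refine Finset.sum_le_sum fun i _ => h _ _ (Finset.filter_subset _ _)
      ((Finset.filter_subset _ _).trans (Finset.filter_subset _ _)) fun e he => ?_
    obtain ⟨h3, h4⟩ := Finset.mem_filter.1 he
    obtain ⟨h5, h6, h7⟩ := Finset.mem_filter.1 h3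
    exact ⟨Finset.mem_filter.2 ⟨(hF e h5).1, h4⟩,
      Finset.mem_filter.2 ⟨(hF e h5).2.1, h6.trans h4⟩,
      fun z hz hz' => h7 z hz ((Finset.mem_filter.1 hz').2.trans h4.symm)⟩
  have h3 : ∑ e ∈ F, (Finset.univ.filter (good e)).card =
      ∑ f : V → Fin (2 * κ), (F.filter fun e => good e f).card := by
    simp only [Finset.card_filter]
    exact Finset.sum_comm
  have h4 := Finset.card_nsmul_le_sum F _ _ h1
  rw [← Finset.mul_sum, h3, smul_eq_mul] at h4
  have h5 := Finset.sum_le_card_nsmul Finset.univ _ _ fun f _ => h2 f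
  rw [smul_eq_mul, Finset.card_univ] at h5
  have : Nonempty (Fin (2 * κ)) := ⟨⟨0, by omega⟩⟩
  refine Nat.le_of_mul_le_mul_right ?_ (Fintype.card_pos (α := V → Fin (2 * κ)))
  refine h4.trans ((Nat.mul_le_mul_left _ h5).trans (le_of_eq ?_))
  ring

theorem sparse_of_drawing [Fintype V] {k : ℕ} {G : SimpleGraph V} (h : GapDrawing k G) :
    Sparse G (k + 1) := by
  intro ρ B X F A hA hX hF
  obtain ⟨C, hC, hS⟩ := exists_cover h ρ B X F A hA hX hF
  rcases F.eq_empty_or_nonempty with rfl | ⟨e, he⟩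
  · simp
  have hB : 1 ≤ B := (Finset.card_pos.2 ⟨_, hX _ (hF e he).1⟩).trans_le' le_rfl |>.trans_le (hA _)
  have := sample ((ρ + 1) * (k + 1) * B) (Nat.succ_le_of_lt (by positivity)) X F C
    (fun e he => ⟨(hF e he).1, (hF e he).2.1, (hF e he).2.2.1⟩) hC hS
  calc F.card ≤ 32 * ((ρ + 1) * (k + 1) * B) * X.card := this
    _ = 32 * (ρ + 1) * (k + 1) * B * X.card := by ring

end Pool.Agent.Lib.MP_e7c4c5_co.Sub
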