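import Pool.Agent.Lib.MP_e7c4c5_co.Sub.Code

/-!
Record chains in a window, and the union bound over pairs of chains.
-/

set_option autoImplicit false

namespace Pool.Agent.Lib.MP_e7c4c5_co.Sub

variable {V : Type}

/-- A chain of `a` successive records to the right of `p`, below `y`. -/
def RC (f : ℕ → ℕ) (p a y : ℕ) : Prop :=
  ∃ c : ℕ → ℕ, c 0 = p ∧ c a < y ∧ ∀ i < a, c i < c (i + 1) ∧ f (c i) ≤ f (c (i + 1)) ∧
    ∀ z, c i < z → z < c (i + 1) → f z < f (c i)

/-- A chain of `a` successive records to the left of `p`, not below `x`. -/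
def LC (f : ℕ → ℕ) (p a x : ℕ) : Prop :=
  ∃ c : ℕ → ℕ, c 0 = p ∧ x ≤ c a ∧ ∀ i < a, c (i + 1) < c i ∧ f (c i) ≤ f (c (i + 1)) ∧
    ∀ z, c (i + 1) < z → z < c i → f z < f (c i)

theorem RC.le {c : ℕ → ℕ} {a : ℕ} (h : ∀ i < a, c i < c (i + 1)) :
    ∀ i j, i < j → j ≤ a → c i < c j := by
  intro i j hij hj
  induction j with
  | zero => omega
  | succ j ih =>
    have := h j (by omega)
    rcases eq_or_lt_of_le (Nat.lt_succ_iff.1 hij) with rfl | h1
    · exact this
    · exact (ih h1 (by omega)).trans this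

theorem LC.le {c : ℕ → ℕ} {a : ℕ} (h : ∀ i < a, c (i + 1) < c i) :
    ∀ i j, i < j → j ≤ a → c j < c i := by
  intro i j hij hj
  induction j with
  | zero => omega
  | succ j ih =>
    have := h j (by omega)
    rcases eq_or_lt_of_le (Nat.lt_succ_iff.1 hij) with rfl | h1
    · exact this
    · exact this.trans (ih h1 (by omega))

theorem RC.succ {f : ℕ → ℕ} {p a q y : ℕ} (h : RC f p a q) (hq : q < y)
    (hmax : ∀ z, p ≤ z → z < q → f z ≤ f q) : RC f p (a + 1) y := by
  classical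
  obtain ⟨c, h0, h1, h2⟩ := h
  have hpa : p ≤ c a := by
    rcases Nat.eq_zero_or_pos a with rfl | ha
    · exact h0.ge
    · exact h0 ▸ (RC.le (fun i hi => (h2 i hi).1) 0 a ha le_rfl).le
  have hex : ∃ z, c a < z ∧ f (c a) ≤ f z := ⟨q, h1, hmax _ hpa h1⟩
  have hs := Nat.find_spec hex
  have hle : Nat.find hex ≤ q := Nat.find_min' hex ⟨h1, hmax _ hpa h1⟩
  refine ⟨fun i => if i ≤ a then c i else Nat.find hex, by simp [h0],
    by simpa only [Nat.add_one_le_iff, lt_self_iff_false, if_false] using hle.trans_lt hq, ?_⟩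
  intro i hi
  rcases eq_or_lt_of_le (Nat.lt_succ_iff.1 hi) with rfl | h3
  · simp only [le_refl, if_true, Nat.add_one_le_iff, lt_self_iff_false, if_false]
    refine ⟨hs.1, hs.2, fun z hz hz' => ?_⟩
    have := Nat.find_min hex hz'
    push Not at this
    exact this hz
  · have e1 : i ≤ a := h3.le
    have e2 : i + 1 ≤ a := h3
    simp only [e1, e2, if_true]
    exact h2 i h3

theorem LC.succ {f : ℕ → ℕ} {p a q x : ℕ} (h : LC f p a (q + 1)) (hq : x ≤ q)
    (hmax : ∀ z, q < z → z ≤ p → f z ≤ f q) : LC f p (a + 1) x := by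
  classical
  obtain ⟨c, h0, h1, h2⟩ := h
  have hpa : c a ≤ p := by
    rcases Nat.eq_zero_or_pos a with rfl | ha
    · exact h0.le
    · exact h0 ▸ (LC.le (fun i hi => (h2 i hi).1) 0 a ha le_rfl).le
  let P : ℕ → Prop := fun z => z < c a ∧ f (c a) ≤ f z
  have hP : P q := ⟨h1, hmax _ h1 hpa⟩
  have hs : P (Nat.findGreatest P (c a)) := Nat.findGreatest_spec (le_of_lt h1) hP
  have hle : q ≤ Nat.findGreatest P (c a) := Nat.le_findGreatest (le_of_lt h1) hP
  refine ⟨fun i => if i ≤ a then c i else Nat.findGreatest P (c a), by simp [h0],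
    by simp; omega, ?_⟩
  intro i hi
  rcases eq_or_lt_of_le (Nat.lt_succ_iff.1 hi) with rfl | h3
  · simp only [le_refl, if_true, Nat.add_one_le_iff, lt_self_iff_false, if_false]
    refine ⟨hs.1, hs.2, fun z hz hz' => ?_⟩
    have := Nat.findGreatest_is_greatest (P := P) hz hz'.le
    simp only [P, not_and, not_le] at this
    exact this hz'
  · have e1 : i ≤ a := h3.le
    have e2 : i + 1 ≤ a := h3
    simp only [e1, e2, if_true]
    exact h2 i h3

theorem exists_rc_lc (f : ℕ → ℕ) (σ : ℕ) : ∀ x y, x + 2 ^ σ ≤ y →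
    ∃ p a b, a + b = σ ∧ x ≤ p ∧ p < y ∧ RC f p a y ∧ LC f p b x := by
  induction σ with
  | zero =>
    intro x y h
    exact ⟨x, 0, 0, rfl, le_rfl, by omega, 
      ⟨fun _ => x, rfl, by show x < y; omega, fun i hi => by omega⟩,
      ⟨fun _ => x, rfl, le_rfl, fun i hi => by omega⟩⟩
  | succ σ ih =>
    intro x y h
    have hpos : 0 < 2 ^ σ := by positivity
    rw [pow_succ] at h
    obtain ⟨q, hq, hmax⟩ := (Finset.Ico x y).exists_max_image f ⟨x, by simp; omega⟩
    rw [Finset.mem_Ico] at hq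
    by_cases hc : x + 2 ^ σ ≤ q
    · obtain ⟨p, a, b, e, h1, h2, h3, h4⟩ := ih x q hc
      exact ⟨p, a + 1, b, by omega, h1, by omega,
        h3.succ hq.2 fun z hz hz' => hmax z (by simp; omega), h4⟩
    · obtain ⟨p, a, b, e, h1, h2, h3, h4⟩ := ih (q + 1) y (by omega)
      exact ⟨p, a, b + 1, by omega, by omega, h2, h3,
        h4.succ hq.1 fun z hz hz' => hmax z (by simp; omega)⟩

theorem exists_chain (f : ℕ → ℕ) (s : ℕ) :
    ∃ c : ℕ → ℕ, (∀ i ≤ s, c i < 4 ^ s) ∧ (∀ i ≤ s, ∀ j ≤ s, c i = c j → i = j) ∧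
      ∀ i < s, f (c i) ≤ f (c (i + 1)) ∧
        ∀ z, (c i < z ∧ z < c (i + 1)) ∨ (c (i + 1) < z ∧ z < c i) → f z < f (c i) := by
  obtain ⟨p, a, b, e, -, h2, h3, h4⟩ := exists_rc_lc f (2 * s) 0 (4 ^ s)
    (by rw [pow_mul]; simp)
  by_cases hc : s ≤ a
  · obtain ⟨c, h0, h1, h5⟩ := h3
    have hm := RC.le fun i hi => (h5 i hi).1
    refine ⟨c, fun i hi => ?_, fun i hi j hj hij => ?_, fun i hi => ?_⟩
    · rcases eq_or_lt_of_le (hi.trans hc) with rfl | h6
      · exact h1
      · exact (hm i a h6 le_rfl).trans h1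
    · rcases lt_trichotomy i j with h6 | h6 | h6
      · have := hm i j h6 (by omega); omega
      · exact h6
      · have := hm j i h6 (by omega); omega
    · obtain ⟨k1, k2, k3⟩ := h5 i (by omega)
      exact ⟨k2, fun z hz => hz.elim (fun h => k3 z h.1 h.2) fun h => by omega⟩
  · obtain ⟨c, h0, h1, h5⟩ := h4
    have hm := LC.le fun i hi => (h5 i hi).1
    refine ⟨c, fun i hi => ?_, fun i hi j hj hij => ?_, fun i hi => ?_⟩
    · rcases Nat.eq_zero_or_pos i with rfl | h6
      · omega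
      · have := hm 0 i h6 (by omega); omega
    · rcases lt_trichotomy i j with h6 | h6 | h6
      · have := hm i j h6 (by omega); omega
      · exact h6
      · have := hm j i h6 (by omega); omega
    · obtain ⟨k1, k2, k3⟩ := h5 i (by omega)
      exact ⟨k2, fun z hz => hz.elim (fun h => by omega) fun h => k3 z h.1 h.2⟩

theorem card_event [Fintype V] [DecidableEq V] (q s : ℕ) (a b : ℕ → V)
    (ha : ∀ i ≤ s, ∀ j ≤ s, a i = a j → i = j) (hab : ∀ i ≤ s, ∀ j ≤ s, a i ≠ b j) :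
    (Finset.univ.filter fun ψ : V → Fin q => ∀ i ≤ s, ψ (a i) = ψ (b i)).card * q ^ (s + 1) ≤
      q ^ Fintype.card V := by
  let I : Finset V := (Finset.range (s + 1)).image a
  have hI : I.card = s + 1 := by
    rw [Finset.card_image_of_injOn, Finset.card_range]
    intro i hi j hj hij
    exact ha i (by simpa [Nat.lt_succ_iff] using hi) j (by simpa [Nat.lt_succ_iff] using hj) hij
  have h1 : (Finset.univ.filter fun ψ : V → Fin q => ∀ i ≤ s, ψ (a i) = ψ (b i)).card ≤
      Fintype.card ({x // x ∉ I} → Fin q) := by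
    rw [← Finset.card_univ]
    refine Finset.card_le_card_of_injOn (fun ψ x => ψ x.1) (fun _ _ => by simp) ?_
    intro ψ hψ φ hφ e
    simp only [Finset.coe_filter, Finset.mem_univ, true_and, Set.mem_ofPred_eq] at hψ hφ
    have e' : ∀ x, x ∉ I → ψ x = φ x := fun x hx => congrFun e ⟨x, hx⟩
    funext x
    by_cases hx : x ∈ I
    · obtain ⟨i, hi, rfl⟩ := Finset.mem_image.1 hx
      have hi' : i ≤ s := by simpa [Nat.lt_succ_iff] using hi
      rw [hψ i hi', hφ i hi']
      refine e' _ fun hb => ?_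
      obtain ⟨j, hj, hj'⟩ := Finset.mem_image.1 hb
      exact hab j (by simpa [Nat.lt_succ_iff] using hj) i hi' hj'
    · exact e' x hx
  have h2 : Fintype.card {x // x ∉ I} + (s + 1) = Fintype.card V := by
    rw [Fintype.card_subtype_compl, Fintype.card_coe, hI]
    have : I.card ≤ Fintype.card V := Finset.card_le_univ _
    omega
  rw [Fintype.card_fun, Fintype.card_fin] at h1
  rw [← h2, pow_add q (Fintype.card _)]
  exact Nat.mul_le_mul_right _ h1

theorem union_bound [Fintype V] (R : V → V → Prop) (M : ℕ) (hM : 0 < M)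
    (hR : ∀ v, {u | R v u}.ncard ≤ M) (s q : ℕ)
    (hq : (Fintype.card V * M ^ s) ^ 2 < q ^ (s + 1)) :
    ∃ ψ : V → Fin q, ∀ a b : ℕ → V, (∀ i < s, R (a i) (a (i + 1))) →
      (∀ i < s, R (b i) (b (i + 1))) → (∀ i ≤ s, ∀ j ≤ s, a i = a j → i = j) →
      (∀ i ≤ s, ∀ j ≤ s, a i ≠ b j) → ∃ i ≤ s, ψ (a i) ≠ ψ (b i) := by
  classical
  obtain ⟨nb, hnb⟩ := exists_nb R hR
  have hq0 : 0 < q := by
    rcases Nat.eq_zero_or_pos q with rfl | h
    · simp at hq
    · exact h
  let ι := (V × (Fin s → Fin M)) × (V × (Fin s → Fin M))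
  let da : ι → ℕ → V := fun x => decode nb x.1.1 (ext hM x.1.2)
  let db : ι → ℕ → V := fun x => decode nb x.2.1 (ext hM x.2.2)
  let E : ι → Finset (V → Fin q) := fun x => Finset.univ.filter fun ψ =>
    ((∀ i ≤ s, ∀ j ≤ s, da x i = da x j → i = j) ∧ ∀ i ≤ s, ∀ j ≤ s, da x i ≠ db x j) ∧
      ∀ i ≤ s, ψ (da x i) = ψ (db x i)
  have hE : ∀ x, (E x).card * q ^ (s + 1) ≤ q ^ Fintype.card V := by
    intro x
    by_cases hx : (∀ i ≤ s, ∀ j ≤ s, da x i = da x j → i = j) ∧ ∀ i ≤ s, ∀ j ≤ s, da x i ≠ db x j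
    · refine le_trans (Nat.mul_le_mul_right _ (Finset.card_le_card ?_))
        (card_event q s (da x) (db x) hx.1 hx.2)
      intro ψ hψ
      simp only [E, Finset.mem_filter, Finset.mem_univ, true_and] at hψ ⊢
      exact hψ.2
    · have : E x = ∅ := Finset.filter_eq_empty_iff.2 fun ψ _ h => hx h.1
      simp [this]
  have hlt : (Finset.univ.biUnion E).card < (Finset.univ : Finset (V → Fin q)).card := by
    have h1 : (Finset.univ.biUnion E).card * q ^ (s + 1) ≤
        (Fintype.card V * M ^ s) ^ 2 * q ^ Fintype.card V := by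
      calc _ ≤ (∑ x, (E x).card) * q ^ (s + 1) := Nat.mul_le_mul_right _ Finset.card_biUnion_le
        _ = ∑ x, (E x).card * q ^ (s + 1) := Finset.sum_mul _ _ _
        _ ≤ ∑ _x : ι, q ^ Fintype.card V := Finset.sum_le_sum fun x _ => hE x
        _ = _ := by simp [ι, sq]
    have h2 : (Fintype.card V * M ^ s) ^ 2 * q ^ Fintype.card V <
        q ^ Fintype.card V * q ^ (s + 1) := by
      rw [mul_comm]
      exact Nat.mul_lt_mul_of_pos_left hq (by positivity)
    rw [Finset.card_univ, Fintype.card_fun, Fintype.card_fin]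
    exact lt_of_mul_lt_mul_right (h1.trans_lt h2) (Nat.zero_le _)
  obtain ⟨ψ, -, hψ⟩ := Finset.exists_mem_notMem_of_card_lt_card hlt
  refine ⟨ψ, fun a b ha hb haa hab => ?_⟩
  by_contra hcon
  push Not at hcon
  obtain ⟨ca, hca⟩ := exists_code hM hnb a s s le_rfl ha
  obtain ⟨cb, hcb⟩ := exists_code hM hnb b s s le_rfl hb
  refine hψ (Finset.mem_biUnion.2 ⟨((a 0, ca), (b 0, cb)), Finset.mem_univ _, ?_⟩)
  simp only [E, da, db, Finset.mem_filter, Finset.mem_univ, true_and]
  refine ⟨⟨fun i hi j hj h => ?_, fun i hi j hj => ?_⟩, fun i hi => ?_⟩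
  · rw [hca i hi, hca j hj] at h
    exact haa i hi j hj h
  · rw [hca i hi, hcb j hj]
    exact hab i hi j hj
  · rw [hca i hi, hcb i hi]
    exact hcon i hi

end Pool.Agent.Lib.MP_e7c4c5_co.Sub
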