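import Pool.Agent.Lib.MP_e7c4c5_co.Sub.Defs
import Pool.Agent.Lib.MP_e7c4c5_co.Sub.Chain
import Pool.Agent.Lib.MP_e7c4c5_co.Sub.Ros

/-!
The colouring: level, a nonrepetitive colour for the bounded degree graph of ties, and a colour
from the union bound.
-/

set_option autoImplicit false

namespace Pool.Agent.Lib.MP_e7c4c5_co.Sub

variable {V : Type}

theorem reach_of_between {G : SimpleGraph V} {ℓ : V → ℕ} {r T : ℕ} {w : ℕ → V}
    (hw : ∀ j, j + 1 < T → G.Adj (w j) (w (j + 1)))
    (hinj : ∀ i < T, ∀ j < T, w i = w j → i = j) {p q : ℕ} (hp : p < T) (hq : q < T) (hne : p ≠ q)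
    (h1 : q ≤ p + r) (h2 : p ≤ q + r) (hl : ℓ (w p) ≤ ℓ (w q))
    (hb : ∀ z, (p < z ∧ z < q) ∨ (q < z ∧ z < p) → ℓ (w z) < ℓ (w p)) :
    Reach G r {u | ℓ (w p) ≤ ℓ u} (w p) (w q) := by
  refine ⟨hl, fun e => hne (hinj p hp q hq e.symm), ?_⟩
  rcases lt_or_gt_of_ne hne with h | h
  · refine ⟨fun i => w (p + i), q - p, by omega, fun i hi => hw (p + i) (by omega), rfl, ?_, ?_⟩
    · show w (p + (q - p)) = w q
      congr 1; omega
    · intro i hi hi'
      exact not_le.2 (hb (p + i) (Or.inl ⟨by omega, by omega⟩))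
  · refine ⟨fun i => w (p - i), p - q, by omega, fun i hi => ?_, rfl, ?_, ?_⟩
    · have := (hw (p - (i + 1)) (by omega)).symm
      rwa [show p - (i + 1) + 1 = p - i by omega] at this
    · show w (p - (p - q)) = w q
      congr 1; omega
    · intro i hi hi'
      exact not_le.2 (hb (p - i) (Or.inr ⟨by omega, by omega⟩))

theorem exists_enum (Q : Finset ℕ) :
    ∃ p : ℕ → ℕ, (∀ a < Q.card, p a ∈ Q) ∧ (∀ a b, a < b → b < Q.card → p a < p b) ∧
      ∀ z ∈ Q, ∃ a < Q.card, p a = z := by
  let e := Q.orderEmbOfFin rfl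
  refine ⟨fun a => if h : a < Q.card then e ⟨a, h⟩ else 0, fun a ha => ?_, fun a b hab hb => ?_,
    fun z hz => ?_⟩
  · simp only [ha, dif_pos]
    exact Q.orderEmbOfFin_mem rfl _
  · simp only [hb, hab.trans hb, dif_pos]
    exact e.strictMono (Fin.mk_lt_mk.2 hab)
  · have : z ∈ Set.range e := by
      rw [Finset.range_orderEmbOfFin]; exact hz
    obtain ⟨a, ha⟩ := this
    exact ⟨a, a.2, by simpa using ha⟩

/-- The positions of top level, listed with period `t`. -/
theorem exists_top (f : ℕ → ℕ) (t : ℕ) (ht : 0 < t) (hf : ∀ i < t, f (t + i) = f i) :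
    ∃ (m J : ℕ) (P : ℕ → ℕ), 0 < m ∧ (∀ a < 2 * m, P a < 2 * t ∧ f (P a) = J) ∧
      (∀ a b, a < b → b < 2 * m → P a < P b) ∧ (∀ a < m, P a < t ∧ P (m + a) = t + P a) ∧
      ∀ a, a + 1 < 2 * m → ∀ z, P a < z → z < P (a + 1) → f z < J := by
  classical
  obtain ⟨i₀, hi₀, hmax⟩ := (Finset.range t).exists_max_image f ⟨0, by simpa using ht⟩
  let Q := (Finset.range t).filter fun i => f i = f i₀
  obtain ⟨p, h1, h2, h3⟩ := exists_enum Q
  have hm : 0 < Q.card := Finset.card_pos.2 ⟨i₀, by simpa [Q] using hi₀⟩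
  generalize Q.card = m at h1 h2 h3 hm
  have k1 : ∀ a < m, p a < t ∧ f (p a) = f i₀ := fun a ha => by simpa [Q] using h1 a ha
  have k2 : ∀ a b, a < m → b < m → p a < p b → a < b := by
    intro a b ha hb hab
    by_contra hc
    rcases eq_or_lt_of_le (not_lt.1 hc) with rfl | h
    · omega
    · have := h2 b a h ha; omega
  have k3 : ∀ z < t, (∀ a < m, p a ≠ z) → f z < f i₀ := by
    intro z hz hne
    refine lt_of_le_of_ne (hmax z (by simpa using hz)) fun e => ?_
    obtain ⟨a, ha, ha'⟩ := h3 z (by simp [Q, hz, e])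
    exact hne a ha ha'
  refine ⟨m, f i₀, fun a => if a < m then p a else t + p (a - m), hm, fun a ha => ?_,
    fun a b hab hb => ?_, fun a ha => ?_, fun a ha z hz hz' => ?_⟩
  · by_cases h : a < m
    · have := k1 a h
      simp only [h, if_true]
      exact ⟨by omega, this.2⟩
    · have := k1 (a - m) (by omega)
      simp only [h, if_false]
      exact ⟨by omega, by rw [hf _ this.1, this.2]⟩
  · by_cases h : a < m
    · by_cases h' : b < m
      · simpa only [h, h', if_true] using h2 a b hab h'
      · have := k1 a h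
        simp only [h, h', if_true, if_false]
        omega
    · have h' : ¬ b < m := by omega
      have := h2 (a - m) (b - m) (by omega) (by omega)
      simp only [h, h', if_false]
      omega
  · have h' : ¬ m + a < m := by omega
    simp only [ha, h', if_true, if_false, Nat.add_sub_cancel_left]
    exact ⟨(k1 a ha).1, trivial⟩
  · by_cases h : a + 1 < m
    · have h' : a < m := by omega
      simp only [h, h', if_true] at hz hz'
      refine k3 z (hz'.trans (k1 _ h).1) fun b hb e => ?_
      subst e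
      have := k2 a b h' hb hz
      have := k2 b (a + 1) hb h hz'
      omega
    by_cases h' : a < m
    · simp only [h, h', if_true, if_false] at hz hz'
      by_cases hzt : z < t
      · refine k3 z hzt fun b hb e => ?_
        subst e
        have := k2 a b h' hb hz
        omega
      · have e1 := k1 (a + 1 - m) (by omega)
        obtain ⟨y, rfl⟩ : ∃ y, z = t + y := ⟨z - t, by omega⟩
        rw [hf y (by omega)]
        refine k3 y (by omega) fun b hb e => ?_
        subst e
        have := k2 b (a + 1 - m) hb (by omega) (by omega)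
        omega
    · simp only [h, h', if_false] at hz hz'
      have e1 := k1 (a + 1 - m) (by omega)
      obtain ⟨y, rfl⟩ : ∃ y, z = t + y := ⟨z - t, by omega⟩
      rw [hf y (by omega)]
      refine k3 y (by omega) fun b hb e => ?_
      subst e
      have := k2 b (a + 1 - m) hb (by omega) (by omega)
      have := k2 (a - m) b (by omega) hb (by omega)
      omega

theorem core [Fintype V] (G : SimpleGraph V) (s M q : ℕ) (hM : 0 < M) (ℓ : V → ℕ)
    (hD : ∀ v, {x | Reach G (2 * 4 ^ s) {u | ℓ v ≤ ℓ u} v x}.ncard ≤ M)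
    (hq : (Fintype.card V * M ^ s) ^ 2 < q ^ (s + 1)) :
    ∃ (ψ : V → Fin (10 * M ^ 4)) (φ : V → Fin q), ∀ (t : ℕ) (w : ℕ → V), 0 < t →
      (∀ j, j + 1 < 2 * t → G.Adj (w j) (w (j + 1))) →
      (∀ i < 2 * t, ∀ j < 2 * t, w i = w j → i = j) →
      ∃ i < t, ¬ (ℓ (w i) = ℓ (w (t + i)) ∧ ψ (w i) = ψ (w (t + i)) ∧ φ (w i) = φ (w (t + i))) := by
  let R : V → V → Prop := fun v x => Reach G (2 * 4 ^ s) {u | ℓ v ≤ ℓ u} v x
  obtain ⟨ψ, hψ⟩ := rosenfeld R M hM hD
  obtain ⟨φ, hφ⟩ := union_bound R M hM hD s q hq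
  refine ⟨ψ, φ, fun t w ht hw hinj => ?_⟩
  by_contra hcon
  push Not at hcon
  by_cases hc : t < 4 ^ s
  · obtain ⟨m, J, P, hm, h1, h2, h3, h4⟩ := exists_top (fun i => ℓ (w i)) t ht
      fun i hi => (hcon i hi).1.symm
    obtain ⟨i, hi, hne⟩ := hψ m (fun a => w (P a)) hm (fun j hj => by
      have e1 := h1 j (by omega)
      have e2 := h1 (j + 1) hj
      have e3 := h2 j (j + 1) (by omega) hj
      refine ⟨reach_of_between hw hinj e1.1 e2.1 e3.ne (by omega) (by omega)
        (e1.2.trans e2.2.symm).le fun z hz => ?_,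
        reach_of_between hw hinj e2.1 e1.1 e3.ne' (by omega) (by omega)
        (e2.2.trans e1.2.symm).le fun z hz => ?_⟩
      · rw [show ℓ (w (P j)) = J from e1.2]
        exact h4 j hj z (by omega) (by omega)
      · rw [show ℓ (w (P (j + 1))) = J from e2.2]
        exact h4 j hj z (by omega) (by omega)) (fun i hi j hj e => by
      have := hinj _ (h1 i hi).1 _ (h1 j hj).1 e
      rcases lt_trichotomy i j with h | h | h
      · have := h2 i j h hj; omega
      · exact h
      · have := h2 j i h hi; omega)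
    apply hne
    show ψ (w (P i)) = ψ (w (P (m + i)))
    rw [(h3 i hi).2]
    exact (hcon _ (h3 i hi).1).2.1
  · obtain ⟨c, h1, h2, h3⟩ := exists_chain (fun i => ℓ (w i)) s
    have h0 : ∀ i ≤ s, c i < t := fun i hi => (h1 i hi).trans_le (not_lt.1 hc)
    obtain ⟨i, hi, hne⟩ := hφ (fun i => w (c i)) (fun i => w (t + c i)) (fun i hi => by
      have e1 := h1 i hi.le
      have e2 := h1 (i + 1) hi
      have e3 := h0 i hi.le
      have e4 := h0 (i + 1) hi
      exact reach_of_between hw hinj (by omega) (by omega)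
        (fun e => by have := h2 i hi.le (i + 1) hi e; omega) (by omega) (by omega) (h3 i hi).1
        (h3 i hi).2) (fun i hi => by
      have e1 := h1 i hi.le
      have e2 := h1 (i + 1) hi
      have e3 := h0 i hi.le
      have e4 := h0 (i + 1) hi
      refine reach_of_between hw hinj (by omega) (by omega)
        (fun e => by have := h2 i hi.le (i + 1) hi (by omega); omega) (by omega) (by omega) ?_
        fun z hz => ?_
      · rw [← (hcon _ e3).1, ← (hcon _ e4).1]
        exact (h3 i hi).1
      · obtain ⟨y, rfl⟩ : ∃ y, z = t + y := ⟨z - t, by omega⟩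
        rw [← (hcon _ e3).1, ← (hcon y (by omega)).1]
        exact (h3 i hi).2 y (by omega))
      (fun i hi j hj e => h2 i hi j hj
        (hinj _ (by have := h0 i hi; omega) _ (by have := h0 j hj; omega) e))
      (fun i hi j hj e => by
        have e1 := h0 i hi
        have e2 := h0 j hj
        have := hinj _ (by omega) _ (by omega) e
        omega)
    exact hne (hcon _ (h0 i hi)).2.2

end Pool.Agent.Lib.MP_e7c4c5_co.Sub
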