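import Pool.Agent.Lib.MP_e7c4c5_co.Sub.Defs

/-!
The closure lemma (Drange et al.): every set has a slightly larger superset on which all outside
vertices have small projections.
-/

set_option autoImplicit false

namespace Pool.Agent.Lib.MP_e7c4c5_co.Sub

variable {V : Type}

/-- the states of the construction -/
structure Closure_St [DecidableEq V] (G : SimpleGraph V) (r ξ : ℕ) (Y X : Finset V) (root : V → V)
    (F : Finset (V × V)) : Prop where
  sub : Y ⊆ X
  idem : ∀ x ∈ X, root x ∈ X ∧ root (root x) = root x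
  fib : ∀ t, (X.filter fun x => root x = t).card ≤ ξ * r + 1
  path : ∀ x ∈ X, ∃ (w : ℕ → V) (m : ℕ), m ≤ r ∧ IsWalk G w m ∧ w 0 = x ∧ w m = root x ∧
    ∀ i ≤ m, w i ∈ X ∧ root (w i) = root x
  edge : ∀ e ∈ F, (e.1 ∈ X ∧ root e.1 = e.1) ∧ (e.2 ∈ X ∧ root e.2 = e.2) ∧ e.1 ≠ e.2 ∧
    ∃ (w : ℕ → V) (m : ℕ), m ≤ 2 * r ∧ IsWalk G w m ∧ w 0 = e.1 ∧ w m = e.2 ∧
      ∀ i ≤ m, w i ∈ X ∧ (root (w i) = e.1 ∨ root (w i) = e.2)
  cnt : ξ * (X.filter fun x => root x = x).card ≤ F.card + ξ * Y.card

theorem Closure_init [DecidableEq V] (G : SimpleGraph V) (r ξ : ℕ) (Y : Finset V) :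
    Closure_St G r ξ Y Y id ∅ where
  sub := Finset.Subset.refl _
  idem := fun x hx => ⟨hx, rfl⟩
  fib := fun t => by
    refine le_trans (Finset.card_le_one.2 fun a ha b hb => ?_) (Nat.le_add_left _ _)
    exact (Finset.mem_filter.1 ha).2.trans (Finset.mem_filter.1 hb).2.symm
  path := fun x hx => ⟨fun _ => x, 0, Nat.zero_le _, fun i hi => absurd hi (Nat.not_lt_zero i),
    rfl, rfl, fun _ _ => ⟨hx, rfl⟩⟩
  edge := fun e he => absurd he (Finset.notMem_empty e)
  cnt := by simp

theorem Closure_size [DecidableEq V] {G : SimpleGraph V} {K : ℕ} (hK : 1 ≤ K) (h : Sparse G K)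
    {r : ℕ} {Y X : Finset V} {root : V → V} {F : Finset (V × V)}
    (s : Closure_St G r (64 * (2 * r + 1) * K) Y X root F) :
    X.card ≤ 2 * (64 * (2 * r + 1) * K * r + 1) * Y.card := by
  have h1 := h (2 * r) 1 (X.filter fun x => root x = x) F (fun z => {root z}) (fun z => by simp)
    (fun z hz => Finset.mem_singleton.2 (Finset.mem_filter.1 hz).2.symm) (fun e he => by
      obtain ⟨a1, a2, a3, w, m, b1, b2, b3, b4, b5⟩ := s.edge e he
      refine ⟨Finset.mem_filter.2 a1, Finset.mem_filter.2 a2, a3, w, m, b1, b2, b3, b4,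
        fun i hi => ?_⟩
      exact (b5 i hi).2.imp (fun h => Finset.mem_singleton.2 h.symm)
        (fun h => Finset.mem_singleton.2 h.symm))
  have h2 := s.cnt
  have h3 : X.card ≤ (64 * (2 * r + 1) * K * r + 1) * (X.filter fun x => root x = x).card :=
    Finset.card_le_mul_card_image_of_maps_to (f := root)
      (fun a ha => Finset.mem_filter.2 (s.idem a ha)) _ (fun b _ => s.fib b)
  have hc : 0 < 32 * (2 * r + 1) * K := by positivity
  have h4 : (X.filter fun x => root x = x).card ≤ 2 * Y.card := by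
    refine Nat.le_of_mul_le_mul_left ?_ hc
    nlinarith
  calc X.card ≤ (64 * (2 * r + 1) * K * r + 1) * (2 * Y.card) :=
        h3.trans (Nat.mul_le_mul_left _ h4)
    _ = _ := by ring

theorem Closure_step [DecidableEq V] {G : SimpleGraph V} {r ξ : ℕ} {Y X : Finset V} {root : V → V}
    {F : Finset (V × V)} (s : Closure_St G r ξ Y X root F) {z : V} (hz : z ∉ X)
    (hb : ξ * (ξ * r + 1) < {x | Reach G r (X : Set V) z x}.ncard) :
    ∃ X' root' F', Closure_St G r ξ Y X' root' F' ∧ X ⊂ X' := by
  classical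
  set S := X.filter fun x => Reach G r (X : Set V) z x with hS
  have eS : {x | Reach G r (X : Set V) z x} = (S : Set V) := by
    ext x
    simp only [hS, Finset.coe_filter, Set.mem_ofPred_eq]
    exact ⟨fun h => ⟨h.1, h⟩, fun h => h.2⟩
  rw [eS, Set.ncard_coe_finset] at hb
  have h1 : S.card ≤ (ξ * r + 1) * (S.image root).card :=
    Finset.card_le_mul_card_image S _ fun b _ => (Finset.card_le_card
      (Finset.filter_subset_filter _ (Finset.filter_subset _ _))).trans (s.fib b)
  have h2 : ξ ≤ (S.image root).card := by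
    by_contra hlt
    have := Nat.mul_le_mul_left (ξ * r + 1) (not_le.1 hlt).le
    rw [mul_comm ξ (ξ * r + 1)] at hb
    omega
  obtain ⟨Q, hQ, hQc⟩ := Finset.exists_subset_card_eq h2
  have h3 : ∀ t, ∃ (x : V) (w : ℕ → V) (m : ℕ), t ∈ Q → x ∈ X ∧ root x = t ∧ m ≤ r ∧
      IsWalk G w m ∧ w 0 = z ∧ w m = x ∧ ∀ i, 0 < i → i < m → w i ∉ X := fun t => by
    by_cases ht : t ∈ Q
    · obtain ⟨x, hx, rfl⟩ := Finset.mem_image.1 (hQ ht)
      obtain ⟨a1, -, w, m, a2⟩ := (Finset.mem_filter.1 hx).2
      exact ⟨x, w, m, fun _ => ⟨a1, rfl, a2⟩⟩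
    · exact ⟨z, fun _ => z, 0, fun h => (ht h).elim⟩
  choose x w m hw using h3
  set T := insert z (Q.biUnion fun t => (Finset.range (m t)).image (w t)) with hT
  have hzT : z ∈ T := Finset.mem_insert_self _ _
  have hmem : ∀ v, v ∈ T ↔ v = z ∨ ∃ t ∈ Q, ∃ i < m t, w t i = v := fun v => by
    simp [hT]
  have hwT : ∀ t ∈ Q, ∀ i < m t, w t i ∈ T := fun t ht i hi =>
    (hmem _).2 (Or.inr ⟨t, ht, i, hi, rfl⟩)
  have hTX : ∀ v ∈ X, v ∉ T := fun v hv hvT => by
    rcases (hmem v).1 hvT with rfl | ⟨t, ht, i, hi, rfl⟩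
    · exact hz hv
    · obtain ⟨-, -, -, -, a1, -, a2⟩ := hw t ht
      rcases Nat.eq_zero_or_pos i with rfl | h0
      · exact hz (a1 ▸ hv)
      · exact a2 i h0 hi hv
  have hTc : T.card ≤ ξ * r + 1 := by
    refine (Finset.card_insert_le _ _).trans (Nat.add_le_add_right ?_ 1)
    rw [← hQc]
    exact Finset.card_biUnion_le_card_mul _ _ _ fun t ht =>
      Finset.card_image_le.trans ((Finset.card_range _).le.trans (hw t ht).2.2.1)
  set root' : V → V := fun v => if v ∈ T then z else root v with hr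
  have r1 : ∀ v ∈ T, root' v = z := fun v hv => if_pos hv
  have r2 : ∀ v ∈ X, root' v = root v := fun v hv => if_neg (hTX v hv)
  have hQX : ∀ t ∈ Q, t ∈ X ∧ root t = t := fun t ht => by
    obtain ⟨a1, a2, -⟩ := hw t ht
    exact a2 ▸ s.idem _ a1
  refine ⟨X ∪ T, root', F ∪ Q.image fun t => (z, t), ⟨s.sub.trans Finset.subset_union_left,
    fun v hv => ?_, fun t => ?_, fun v hv => ?_, fun e he => ?_, ?_⟩, ?_⟩
  · rcases Finset.mem_union.1 hv with hv | hv
    · rw [r2 v hv, r2 _ (s.idem v hv).1]
      exact ⟨Finset.mem_union_left _ (s.idem v hv).1, (s.idem v hv).2⟩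
    · rw [r1 v hv, r1 z hzT]
      exact ⟨Finset.mem_union_right _ hzT, rfl⟩
  · by_cases ht : t = z
    · refine le_trans (Finset.card_le_card fun v hv => ?_) hTc
      obtain ⟨a1, a2⟩ := Finset.mem_filter.1 hv
      rcases Finset.mem_union.1 a1 with a1 | a1
      · rw [r2 v a1, ht] at a2
        exact (hz (a2 ▸ (s.idem v a1).1)).elim
      · exact a1
    · refine le_trans (Finset.card_le_card fun v hv => ?_) (s.fib t)
      obtain ⟨a1, a2⟩ := Finset.mem_filter.1 hv
      rcases Finset.mem_union.1 a1 with a1 | a1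
      · exact Finset.mem_filter.2 ⟨a1, (r2 v a1).symm.trans a2⟩
      · exact (ht (a2.symm.trans (r1 v a1))).elim
  · rcases Finset.mem_union.1 hv with hv | hv
    · obtain ⟨u, n, a1, a2, a3, a4, a5⟩ := s.path v hv
      refine ⟨u, n, a1, a2, a3, a4.trans (r2 v hv).symm, fun i hi => ?_⟩
      rw [r2 _ (a5 i hi).1, r2 v hv]
      exact ⟨Finset.mem_union_left _ (a5 i hi).1, (a5 i hi).2⟩
    · rw [r1 v hv]
      rcases (hmem v).1 hv with rfl | ⟨t, ht, i, hi, rfl⟩
      · exact ⟨fun _ => v, 0, Nat.zero_le _, fun i hi => absurd hi (Nat.not_lt_zero i), rfl, rfl,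
          fun _ _ => ⟨Finset.mem_union_right _ hv, r1 v hv⟩⟩
      · obtain ⟨-, -, a1, a2, a3, -⟩ := hw t ht
        refine ⟨fun j => w t (i - j), i, by omega, fun j hj => ?_, rfl, by simpa using a3,
          fun j _ => ?_⟩
        · have := (a2 (i - (j + 1)) (by omega)).symm
          rwa [show i - (j + 1) + 1 = i - j by omega] at this
        · have := hwT t ht (i - j) (by omega)
          exact ⟨Finset.mem_union_right _ this, r1 _ this⟩
  · rcases Finset.mem_union.1 he with he | he
    · obtain ⟨a1, a2, a3, u, n, b1, b2, b3, b4, b5⟩ := s.edge e he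
      refine ⟨⟨Finset.mem_union_left _ a1.1, (r2 _ a1.1).trans a1.2⟩,
        ⟨Finset.mem_union_left _ a2.1, (r2 _ a2.1).trans a2.2⟩, a3, u, n, b1, b2, b3, b4,
        fun i hi => ?_⟩
      rw [r2 _ (b5 i hi).1]
      exact ⟨Finset.mem_union_left _ (b5 i hi).1, (b5 i hi).2⟩
    · obtain ⟨t, ht, rfl⟩ := Finset.mem_image.1 he
      obtain ⟨a1, a2, a3, a4, a5, a6, -⟩ := hw t ht
      obtain ⟨u, n, b1, b2, b3, b4, b5⟩ := s.path _ a1
      have htX := hQX t ht
      refine ⟨⟨Finset.mem_union_right _ hzT, r1 z hzT⟩,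
        ⟨Finset.mem_union_left _ htX.1, (r2 _ htX.1).trans htX.2⟩, fun h : z = t => hz (h ▸ htX.1),
        fun j => if j < m t then w t j else u (j - m t), m t + n, by omega, fun j hj => ?_, ?_, ?_,
        fun j hj => ?_⟩
      · by_cases c1 : j < m t
        · by_cases c2 : j + 1 < m t
          · simp only [if_pos c1, if_pos c2]
            exact a4 j c1
          · have e : j + 1 = m t := by omega
            simp only [if_pos c1, if_neg c2]
            rw [e, Nat.sub_self, b3, ← a6, ← e]
            exact a4 j c1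
        · simp only [if_neg c1, if_neg (show ¬ j + 1 < m t by omega)]
          rw [show j + 1 - m t = j - m t + 1 by omega]
          exact b2 _ (by omega)
      · by_cases c1 : 0 < m t
        · simp only [if_pos c1]
          exact a5
        · have e : m t = 0 := by omega
          simp only [if_neg c1]
          rw [Nat.zero_sub, b3, ← a6, e]
          exact a5
      · simp only [if_neg (show ¬ m t + n < m t by omega)]
        rw [Nat.add_sub_cancel_left, b4, a2]
      · by_cases c1 : j < m t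
        · simp only [if_pos c1]
          exact ⟨Finset.mem_union_right _ (hwT t ht j c1), Or.inl (r1 _ (hwT t ht j c1))⟩
        · simp only [if_neg c1]
          have := b5 (j - m t) (by omega)
          exact ⟨Finset.mem_union_left _ this.1, Or.inr ((r2 _ this.1).trans (this.2.trans a2))⟩
  · have c1 : ((X ∪ T).filter fun v => root' v = v).card ≤
        (X.filter fun v => root v = v).card + 1 := by
      refine le_trans (Finset.card_le_card fun v hv => ?_) (Finset.card_insert_le z _)
      obtain ⟨a1, a2⟩ := Finset.mem_filter.1 hv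
      rcases Finset.mem_union.1 a1 with a1 | a1
      · exact Finset.mem_insert_of_mem (Finset.mem_filter.2 ⟨a1, (r2 v a1).symm.trans a2⟩)
      · exact Finset.mem_insert.2 (Or.inl (a2.symm.trans (r1 v a1)))
    have c2 : (F ∪ Q.image fun t => (z, t)).card = F.card + ξ := by
      rw [Finset.card_union_of_disjoint, Finset.card_image_of_injective _
        (fun a b h => (Prod.ext_iff.1 h).2), hQc]
      refine Finset.disjoint_left.2 fun e he he' => ?_
      obtain ⟨t, -, rfl⟩ := Finset.mem_image.1 he'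
      exact hz (s.edge _ he).1.1
    have c3 := s.cnt
    have c4 := Nat.mul_le_mul_left ξ c1
    rw [mul_add, mul_one] at c4
    omega
  · exact ⟨Finset.subset_union_left, fun h => hz (h (Finset.mem_union_right _ hzT))⟩

/-- Sketch.  Write `c = 32 (2r+1) K`, `ξ = 2 c`, `σ = ξ r + 1`.  A state is a finset `X ⊇ Y`, a map
`root : V → V`, and a finset `F` of ordered pairs such that, with `R = X.image root`:
`root x ∈ X` and `root (root x) = root x` for `x ∈ X`; `root y = y` for `y ∈ Y`; every fibre
`X.filter (root · = t)` has at most `σ` elements; every `x ∈ X` has a walk with at most `r` steps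
from `x` to `root x` inside its fibre; every `e ∈ F` has both ends in `R`, distinct, joined by a walk
with at most `2 r` steps all of whose vertices are in `X` and have root `e.1` or `e.2`;
`ξ |R| ≤ |F| + ξ |Y|`.  Start: `X = Y`, `root = id`, `F = ∅`.  By `Sparse` (with `ρ = 2 r`, `B = 1`,
vertex set `R`, `A z = {root z}`) `|F| ≤ c |R|`, so `|R| ≤ 2 |Y|` (if `ξ > 0`; the case `K = 0` is
excluded) and `|X| ≤ 2 σ |Y|`.  Take a state with `X` of largest size.  If some `z ∉ X` reaches more
than `ξ σ` vertices of `X`, these have at least `ξ` different roots; pick `ξ` roots `t`, for each a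
reached vertex `x t` with root `t` and a walk `w t` from `z` to `x t` with interior outside `X`.
Let `T` be `z` together with the vertices `w t i`, `i < m t`; `|T| ≤ ξ r + 1`, `T` is disjoint from
`X`.  New state: `X ∪ T`, root `z` on `T` (walk back to `z` along a reversed initial piece of
`w t`), `F ∪ {(z, t)}` (walk `w t` followed by the walk from `x t` to its root).  Its `X` is larger:
contradiction. -/
theorem exists_closure [Fintype V] {G : SimpleGraph V} {K : ℕ} (hK : 1 ≤ K) (h : Sparse G K)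
    (r : ℕ) (Y : Finset V) :
    ∃ X : Finset V, Y ⊆ X ∧ X.card ≤ 2 * (64 * (2 * r + 1) * K * r + 1) * Y.card ∧
      ∀ z, z ∉ X → {x | Reach G r (X : Set V) z x}.ncard ≤
        64 * (2 * r + 1) * K * (64 * (2 * r + 1) * K * r + 1) := by
  classical
  obtain ⟨X, ⟨root, F, s⟩, hmax⟩ := Set.exists_max_image
    {X : Finset V | ∃ root F, Closure_St G r (64 * (2 * r + 1) * K) Y X root F} Finset.card
    (Set.toFinite _) ⟨Y, id, ∅, Closure_init G r _ Y⟩
  refine ⟨X, s.sub, Closure_size hK h s, fun z hz => ?_⟩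
  by_contra hb
  obtain ⟨X', root', F', s', hlt⟩ := Closure_step s hz (not_le.1 hb)
  exact absurd (hmax X' ⟨root', F', s'⟩) (not_le.2 (Finset.card_lt_card hlt))

end Pool.Agent.Lib.MP_e7c4c5_co.Sub
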