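import Mathlib

/-!
Chains of a relation with bounded out-degree are described by short codes.
-/

set_option autoImplicit false

namespace Pool.Agent.Lib.MP_e7c4c5_co.Sub

variable {V : Type}

/-- Follow the code `c` from `v`. -/
def decode {M : ℕ} (nb : V → Fin M → V) (v : V) (c : ℕ → Fin M) : ℕ → V
  | 0 => v
  | j + 1 => nb (decode nb v c j) (c j)

/-- Extend a finite code. -/
def ext {M a : ℕ} (hM : 0 < M) (c : Fin a → Fin M) : ℕ → Fin M :=
  fun j => if h : j < a then c ⟨j, h⟩ else ⟨0, hM⟩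

theorem exists_nb [Finite V] (R : V → V → Prop) {M : ℕ} (hR : ∀ v, {u | R v u}.ncard ≤ M) :
    ∃ nb : V → Fin M → V, ∀ v u, R v u → ∃ i, nb v i = u := by
  classical
  have : ∀ v, ∃ g : Fin M → V, ∀ u, R v u → ∃ i, g i = u := by
    intro v
    have hfin : {u | R v u}.Finite := Set.toFinite _
    have hc : hfin.toFinset.card ≤ M := by
      rw [← Set.ncard_eq_toFinset_card _ hfin]; exact hR v
    let e := hfin.toFinset.equivFin
    refine ⟨fun i => if h : (i : ℕ) < hfin.toFinset.card then (e.symm ⟨i, h⟩ : V) else v, ?_⟩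
    intro u hu
    have hu' : u ∈ hfin.toFinset := by simpa using hu
    refine ⟨⟨e ⟨u, hu'⟩, (e ⟨u, hu'⟩).2.trans_le hc⟩, ?_⟩
    simp
  choose nb hnb using this
  exact ⟨nb, hnb⟩

theorem exists_code {R : V → V → Prop} {M : ℕ} (hM : 0 < M) {nb : V → Fin M → V}
    (hnb : ∀ v u, R v u → ∃ i, nb v i = u) (w : ℕ → V) (a b : ℕ) (hab : a ≤ b)
    (hw : ∀ j < a, R (w j) (w (j + 1))) :
    ∃ c : Fin b → Fin M, ∀ j ≤ a, decode nb (w 0) (ext hM c) j = w j := by
  classical
  have : ∀ j : ℕ, ∃ i : Fin M, j < a → nb (w j) i = w (j + 1) := by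
    intro j
    by_cases hj : j < a
    · obtain ⟨i, hi⟩ := hnb _ _ (hw j hj)
      exact ⟨i, fun _ => hi⟩
    · exact ⟨⟨0, hM⟩, fun h => absurd h hj⟩
  choose c hc using this
  refine ⟨fun j => c j, fun j hj => ?_⟩
  induction j with
  | zero => rfl
  | succ j ih =>
    have h1 : j < b := by omega
    simp only [decode, ih (by omega), ext, h1, dif_pos]
    exact hc j (by omega)

end Pool.Agent.Lib.MP_e7c4c5_co.Sub
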