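import Mathlib

/-!
Definitions for the subpolynomial bound on the nonrepetitive chromatic number of gap-planar graphs.
-/

set_option autoImplicit false

namespace Pool.Agent.Lib.MP_e7c4c5_co.Sub

variable {V : Type}

/-- `w 0, …, w m` is a walk. -/
def IsWalk (G : SimpleGraph V) (w : ℕ → V) (m : ℕ) : Prop :=
  ∀ i < m, G.Adj (w i) (w (i + 1))

/-- `x ∈ X` is reached from `z` by a walk with at most `r` steps whose interior avoids `X`. -/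
def Reach (G : SimpleGraph V) (r : ℕ) (X : Set V) (z x : V) : Prop :=
  x ∈ X ∧ x ≠ z ∧ ∃ (w : ℕ → V) (m : ℕ), m ≤ r ∧ IsWalk G w m ∧ w 0 = z ∧ w m = x ∧
    ∀ i, 0 < i → i < m → w i ∉ X

/-- The sparsity property of gap-planar graphs that the proof uses (shallow minors with
congestion). -/
def Sparse (G : SimpleGraph V) (K : ℕ) : Prop :=
  ∀ (ρ B : ℕ) (X : Finset V) (F : Finset (V × V)) (A : V → Finset V),
    (∀ z, (A z).card ≤ B) → (∀ z ∈ X, z ∈ A z) →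
    (∀ e ∈ F, e.1 ∈ X ∧ e.2 ∈ X ∧ e.1 ≠ e.2 ∧ ∃ (w : ℕ → V) (m : ℕ), m ≤ ρ ∧ IsWalk G w m ∧
      w 0 = e.1 ∧ w m = e.2 ∧ ∀ i ≤ m, e.1 ∈ A (w i) ∨ e.2 ∈ A (w i)) →
    F.card ≤ 32 * (ρ + 1) * K * B * X.card

/-- The drawing hypothesis of the frozen statement. -/
def GapDrawing (k : ℕ) (G : SimpleGraph V) : Prop :=
  ∃ (p : V → ℝ × ℝ) (γ : V → V → ℝ → ℝ × ℝ) (A : Sym2 V → Set ((ℝ × ℝ) × Sym2 V)),
    Function.Injective p ∧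
    (∀ u v, G.Adj u v →
      ContinuousOn (γ u v) (Set.Icc 0 1) ∧
      Set.InjOn (γ u v) (Set.Icc 0 1) ∧
      γ u v 0 = p u ∧ γ u v 1 = p v ∧
      (∀ t ∈ Set.Icc (0:ℝ) 1, γ v u t = γ u v (1 - t)) ∧
      (∀ t ∈ Set.Ioo (0:ℝ) 1, ∀ w, γ u v t ≠ p w)) ∧
    (∀ u v, G.Adj u v → (A s(u, v)).Finite ∧ (A s(u, v)).ncard ≤ k) ∧
    (∀ u v w z, G.Adj u v → G.Adj w z → s(u, v) ≠ s(w, z) →
      ∀ t₁ ∈ Set.Ioo (0:ℝ) 1, ∀ t₂ ∈ Set.Ioo (0:ℝ) 1,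
        γ u v t₁ = γ w z t₂ →
          (γ u v t₁, s(w, z)) ∈ A s(u, v) ∨ (γ u v t₁, s(u, v)) ∈ A s(w, z))

end Pool.Agent.Lib.MP_e7c4c5_co.Sub
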