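import Pool.Agent.Lib.Common.Planar.Draw

/-!
A planar graph has at most `8 n` ordered pairs of adjacent vertices.
-/

set_option autoImplicit false

namespace Pool.Agent.Lib.MP_e7c4c5_co.Sub

open Pool.Agent.Lib.Common.Pl

theorem Pairs_realizer {W : Type} [Fintype W] (H : SimpleGraph W) (hH : Planar H) :
    ∃ r : Fin 3 → W → ℕ, (∀ i, Function.Injective (r i)) ∧
      ∀ x y z, H.Adj x y → z ≠ x → z ≠ y → ∃ i, r i x < r i z ∧ r i y < r i z := by
  have h1 : Planar (H.map (Sum.inl : W → W ⊕ Fin 3)) :=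
    hH.map_of_injOn _ Sum.inl_injective.injOn
  obtain ⟨H', hle, hH'⟩ := h1.exists_maxOn (S := Set.univ) (Set.subset_univ _)
  have h3 : 3 ≤ (Set.univ : Set (W ⊕ Fin 3)).ncard := by
    rw [Set.ncard_univ, Nat.card_sum]
    simp
  obtain ⟨r, hr, -⟩ := hH'.exists_realizer h3
  refine ⟨fun i v => r i (Sum.inl v), fun i a b hab => ?_, fun x y z hxy hzx hzy => ?_⟩
  · exact Sum.inl_injective (hr.1 i (Set.mem_univ _) (Set.mem_univ _) hab)
  · exact hr.2 _ _ _
      (hle (SimpleGraph.map_adj_apply' hxy fun e => hxy.ne (Sum.inl_injective e)))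
      (Set.mem_univ _) (fun e => hzx (Sum.inl_injective e)) fun e => hzy (Sum.inl_injective e)

/-- The ordered adjacent pairs are determined by one end and the pattern of comparisons in a
Schnyder realizer. -/
theorem planar_pairs {W : Type} [Fintype W] (H : SimpleGraph W) (hH : Planar H)
    (F : Finset (W × W)) (hF : ∀ e ∈ F, H.Adj e.1 e.2) : F.card ≤ 8 * Fintype.card W := by
  classical
  obtain ⟨r, hinj, hr⟩ := Pairs_realizer H hH
  have key : ∀ x y y', H.Adj x y → H.Adj x y' → (∀ i, r i x < r i y ↔ r i x < r i y') →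
      (∀ i j, r i x < r i y → r j x < r j y → i = j) → y = y' := by
    intro x y y' h1 h2 h3 h4
    by_contra hne
    obtain ⟨i, hi, hi'⟩ := hr x y y' h1 h2.ne' (Ne.symm hne)
    obtain ⟨j, hj, hj'⟩ := hr x y' y h2 h1.ne' hne
    obtain rfl := h4 i j ((h3 i).2 hi) hj
    omega
  let σ : W × W → Fin 3 → Bool := fun e i => decide (r i e.1 < r i e.2)
  let P : (Fin 3 → Bool) → Prop := fun τ => ∀ i j, τ i = true → τ j = true → i = j
  have hP : ∀ τ : Fin 3 → Bool, ¬ P τ → ∀ i j, τ i = false → τ j = false → i = j := by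
    simp only [P]
    decide
  let g : W × W → W × (Fin 3 → Bool) := fun e => (if P (σ e) then e.1 else e.2, σ e)
  have hc : (Finset.univ : Finset (W × (Fin 3 → Bool))).card = 8 * Fintype.card W := by
    simp [mul_comm]
  rw [← hc]
  refine Finset.card_le_card_of_injOn g (fun _ _ => by simp) ?_
  rintro ⟨x, y⟩ he ⟨x', y'⟩ he' e
  have h1 : H.Adj x y := hF _ he
  have h2 : H.Adj x' y' := hF _ he'
  obtain ⟨e1, e2⟩ := Prod.ext_iff.1 e
  simp only [g] at e1 e2
  have e3 : ∀ i, r i x < r i y ↔ r i x' < r i y' := fun i => by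
    simpa [σ] using congrFun e2 i
  rw [← e2] at e1
  by_cases hp : P (σ (x, y))
  · simp only [hp, if_true] at e1
    subst e1
    rw [key x y y' h1 h2 e3 fun i j hi hj => hp i j (by simpa [σ] using hi) (by simpa [σ] using hj)]
  · simp only [hp, if_false] at e1
    subst e1
    have n1 : ∀ i, r i x ≠ r i y := fun i h => h1.ne (hinj i h)
    have n2 : ∀ i, r i x' ≠ r i y := fun i h => h2.ne (hinj i h)
    rw [key y x x' h1.symm h2.symm (fun i => by
      have := e3 i; have := n1 i; have := n2 i; omega)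
      fun i j hi hj => hP _ hp i j (by simpa [σ] using hi.le) (by simpa [σ] using hj.le)]

end Pool.Agent.Lib.MP_e7c4c5_co.Sub
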