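import Pool.Agent.Lib.MP_e7c4c5_co.Sub.Defs
import Pool.Agent.Lib.MP_e7c4c5_co.Sub.Pairs
import Pool.Agent.Lib.Common.Planar.Wind

/-!
Gap-planar drawings give the sparsity property.
-/

set_option autoImplicit false

namespace Pool.Agent.Lib.MP_e7c4c5_co.Sub

open Pool.Agent.Lib.Common.Pl

variable {V : Type}

/-- The combinatorial content of a gap-planar drawing. -/
theorem Draw_arcs {k : ℕ} {G : SimpleGraph V} (h : GapDrawing k G) :
    ∃ (p : V → ℝ × ℝ) (arc : V → V → Set (ℝ × ℝ)) (D : V → V → Finset V),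
      Function.Injective p ∧ (∀ u v, G.Adj u v → (D u v).card ≤ k) ∧
      (∀ u v, G.Adj u v → JoinedIn (arc u v) (p u) (p v)) ∧
      (∀ u v z, G.Adj u v → p z ∈ arc u v → z = u ∨ z = v) ∧
      ∀ a b c d q, G.Adj a b → G.Adj c d → q ∈ arc a b → q ∈ arc c d →
        (∃ z, (z = c ∨ z = d) ∧ (z = a ∨ z = b ∨ z ∈ D a b)) ∨
          ∃ z, (z = a ∨ z = b) ∧ (z = c ∨ z = d ∨ z ∈ D c d) := by
  classical
  obtain ⟨p, γ, A, hp, hγ, hA, hX⟩ := h
  have hD : ∀ u v, ∃ s : Finset V, G.Adj u v → s.card ≤ k ∧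
      ∀ q c d, (q, s(c, d)) ∈ A s(u, v) → ∃ z, (z = c ∨ z = d) ∧ z ∈ s := by
    intro u v
    by_cases h : G.Adj u v
    · refine ⟨(hA u v h).1.toFinset.image fun q => q.2.out.1, fun _ => ⟨Finset.card_image_le.trans
        ((Set.ncard_eq_toFinset_card _ (hA u v h).1).symm.trans_le (hA u v h).2),
        fun q c d hq => ⟨_, Sym2.mem_iff.1 (Sym2.out_fst_mem s(c, d)), ?_⟩⟩⟩
      exact Finset.mem_image.2 ⟨_, (hA u v h).1.mem_toFinset.2 hq, rfl⟩
    · exact ⟨∅, fun h' => absurd h' h⟩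
  choose D hD using hD
  have hend : ∀ u v, G.Adj u v → ∀ t ∈ Set.Icc (0:ℝ) 1,
      t ∈ Set.Ioo (0:ℝ) 1 ∨ ∃ z, (z = u ∨ z = v) ∧ γ u v t = p z := by
    intro u v h t ht
    rcases ht.1.eq_or_lt with rfl | h0
    · exact Or.inr ⟨u, Or.inl rfl, (hγ u v h).2.2.1⟩
    rcases ht.2.eq_or_lt with rfl | h1
    · exact Or.inr ⟨v, Or.inr rfl, (hγ u v h).2.2.2.1⟩
    · exact Or.inl ⟨h0, h1⟩
  have hv : ∀ u v z, G.Adj u v → p z ∈ γ u v '' Set.Icc 0 1 → z = u ∨ z = v := by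
    rintro u v z h ⟨t, ht, hz⟩
    rcases hend u v h t ht with h' | ⟨z', h1, h2⟩
    · exact absurd hz ((hγ u v h).2.2.2.2.2 t h' z)
    · rwa [hp (hz.symm.trans h2)]
  refine ⟨p, fun u v => γ u v '' Set.Icc 0 1, D, hp, fun u v h => (hD u v h).1, fun u v h => ?_,
    hv, ?_⟩
  · exact (((convex_Icc (0:ℝ) 1).isPathConnected ⟨0, by simp⟩).image' (hγ u v h).1).joinedIn _
      ⟨0, by simp, (hγ u v h).2.2.1⟩ _ ⟨1, by simp, (hγ u v h).2.2.2.1⟩
  · rintro a b c d _ hab hcd ⟨t, ht, rfl⟩ ⟨t', ht', h⟩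
    rcases hend a b hab t ht with h1 | ⟨z, h1, h2⟩
    swap
    · exact Or.inr ⟨z, h1, (hv c d z hcd ⟨t', ht', h.trans h2⟩).imp_right Or.inl⟩
    rcases hend c d hcd t' ht' with h2 | ⟨z, h2, h3⟩
    swap
    · exact Or.inl ⟨z, h2, (hv a b z hab ⟨t, ht, h.symm.trans h3⟩).imp_right Or.inl⟩
    by_cases he : s(a, b) = s(c, d)
    · exact Or.inl ⟨a, Sym2.mem_iff.1 (he ▸ Sym2.mem_mk_left a b), Or.inl rfl⟩
    rcases hX a b c d hab hcd he t h1 t' h2 h.symm with h3 | h3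
    · obtain ⟨z, h4, h5⟩ := (hD a b hab).2 _ _ _ h3
      exact Or.inl ⟨z, h4, Or.inr (Or.inr h5)⟩
    · obtain ⟨z, h4, h5⟩ := (hD c d hcd).2 _ _ _ h3
      exact Or.inr ⟨z, h4, Or.inr (Or.inr h5)⟩

/-- Topological step.  Every pair `e ∈ F` gets a cover `C e` of at most `(ρ+1)(k+1)B` vertices
such that any subfamily whose ends lie in `S` and whose covers meet `S` only in the ends has at
most `8 |S|` members.
Sketch: choose for `e ∈ F` its walk `w e`, `m e`.  `C e` is the union of `A (w e i)` for `i ≤ m e`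
and of `A (g.out.1)` (some end of `g`) for the pairs `(pt, g)` charged to an edge
`s(w e i, w e (i+1))`, `i < m e`; its size is at most `(ρ+1) B + ρ k B`.  Given `S`, `F'`, take the
graph on the subtype of `S` with `x ~ y` iff `(x,y) ∈ F'` or `(y,x) ∈ F'`, and for
`isVK_of_weakDrawing` the set `T x y ∪ T y x`, where `T x y` is the union of the arcs
`γ (w i) (w (i+1)) '' Icc 0 1` of the walk of `(x,y)` if `(x,y) ∈ F'` and empty otherwise.
A vertex point on an arc is an end of that arc (interiors avoid vertex points, `p` injective), so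
a vertex `z ∈ S` on `T x y` is on the walk and `z ∈ A z ⊆ C (x,y)`.  If arcs `f` of the walk of
`(x,y)` and `g` of the walk of `(u,v)` meet (`x y u v` distinct): either they share a vertex `z`
(also when `f = g` in `Sym2`), and then `u` or `v` is in `A z ⊆ C (x,y)`; or they cross in interior
points, the crossing is charged to `f` (then `u` or `v` is in `A (g.out.1) ⊆ C (x,y)`, since
`g.out.1` is on the walk of `(u,v)`) or symmetrically to `g`.  Finish with `IsVK.planar` and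
`planar_pairs`. -/
theorem exists_cover [Fintype V] {k : ℕ} {G : SimpleGraph V} (h : GapDrawing k G)
    (ρ B : ℕ) (X : Finset V) (F : Finset (V × V)) (A : V → Finset V)
    (hA : ∀ z, (A z).card ≤ B) (hX : ∀ z ∈ X, z ∈ A z)
    (hF : ∀ e ∈ F, e.1 ∈ X ∧ e.2 ∈ X ∧ e.1 ≠ e.2 ∧ ∃ (w : ℕ → V) (m : ℕ), m ≤ ρ ∧ IsWalk G w m ∧
      w 0 = e.1 ∧ w m = e.2 ∧ ∀ i ≤ m, e.1 ∈ A (w i) ∨ e.2 ∈ A (w i)) :
    ∃ C : V × V → Finset V, (∀ e ∈ F, (C e).card ≤ (ρ + 1) * (k + 1) * B) ∧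
      ∀ (S : Finset V) (F' : Finset (V × V)), S ⊆ X → F' ⊆ F →
        (∀ e ∈ F', e.1 ∈ S ∧ e.2 ∈ S ∧ ∀ z ∈ C e, z ∈ S → z = e.1 ∨ z = e.2) →
        F'.card ≤ 8 * S.card := by
  classical
  obtain ⟨p, arc, D, hp, hD, hj, hv, hm⟩ := Draw_arcs h
  rcases F.eq_empty_or_nonempty with rfl | ⟨e₀, -⟩
  · exact ⟨fun _ => ∅, by simp, fun S F' _ h _ => by simp [Finset.subset_empty.1 h]⟩
  have : Nonempty V := ⟨e₀.1⟩
  choose! w m hmρ hw h0 h1 hA' using fun e he => (hF e he).2.2.2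
  let U : V × V → Finset V := fun e =>
    (Finset.range (m e + 1)).biUnion fun i =>
      insert (w e i) (if i < m e then D (w e i) (w e (i + 1)) else ∅)
  have hU1 : ∀ e, ∀ i ≤ m e, w e i ∈ U e := fun e i hi =>
    Finset.mem_biUnion.2 ⟨i, Finset.mem_range.2 (Nat.lt_succ_of_le hi), Finset.mem_insert_self _ _⟩
  have hU2 : ∀ e, ∀ i < m e, ∀ z, z = w e i ∨ z = w e (i + 1) ∨ z ∈ D (w e i) (w e (i + 1)) →
      z ∈ U e := by
    rintro e i hi z (rfl | rfl | hz)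
    · exact hU1 e i hi.le
    · exact hU1 e _ hi
    · exact Finset.mem_biUnion.2 ⟨i, Finset.mem_range.2 (Nat.lt_succ_of_lt hi),
        Finset.mem_insert_of_mem (by rwa [if_pos hi])⟩
  refine ⟨fun e => (U e).biUnion A, fun e he => ?_, fun S F' hS hF' hC => ?_⟩
  · refine (Finset.card_biUnion_le_card_mul _ _ _ fun z _ => hA z).trans
      (Nat.mul_le_mul_right _ ((Finset.card_biUnion_le_card_mul _ _ (k + 1) fun i _ => ?_).trans ?_))
    · refine (Finset.card_insert_le _ _).trans (Nat.succ_le_succ ?_)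
      split_ifs with hi
      · exact hD _ _ (hw e he i hi)
      · exact Nat.zero_le _
    · rw [Finset.card_range]
      exact Nat.mul_le_mul_right _ (Nat.succ_le_succ (hmρ e he))
  let T : V × V → Set (ℝ × ℝ) := fun e => {q | ∃ i < m e, q ∈ arc (w e i) (w e (i + 1))}
  have hT : ∀ e ∈ F, JoinedIn (T e) (p e.1) (p e.2) := fun e he => by
    have hstep : ∀ i < m e, JoinedIn (T e) (p (w e i)) (p (w e (i + 1))) := fun i hi =>
      (hj _ _ (hw e he i hi)).mono fun q hq => ⟨i, hi, hq⟩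
    have hpos : 0 < m e := Nat.pos_of_ne_zero fun h =>
      (hF e he).2.2.1 ((h0 e he).symm.trans (h ▸ h1 e he))
    have key : ∀ j ≤ m e, JoinedIn (T e) (p (w e 0)) (p (w e j)) := fun j hj => by
      induction j with
      | zero => exact JoinedIn.refl (hstep 0 hpos).source_mem
      | succ j ih => exact (ih (Nat.le_of_succ_le hj)).trans (hstep j hj)
    simpa only [h0 e he, h1 e he] using key _ le_rfl
  have k1 : ∀ e ∈ F', ∀ z ∈ S, p z ∈ T e → z = e.1 ∨ z = e.2 := by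
    rintro e he z hz ⟨i, hi, hq⟩
    exact (hC e he).2.2 z (Finset.mem_biUnion.2 ⟨z, hU2 e i hi z
      ((hv _ _ z (hw e (hF' he) i hi) hq).imp_right Or.inl), hX z (hS hz)⟩) hz
  have k2 : ∀ e ∈ F', ∀ e' ∈ F', ∀ i < m e', ∀ z, z = w e' i ∨ z = w e' (i + 1) → z ∈ U e →
      ∃ x, (x = e.1 ∨ x = e.2) ∧ (x = e'.1 ∨ x = e'.2) := by
    intro e he e' he' i hi z hz hzU
    have h2 : e'.1 ∈ A z ∨ e'.2 ∈ A z := by
      rcases hz with rfl | rfl
      · exact hA' e' (hF' he') i hi.le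
      · exact hA' e' (hF' he') _ hi
    rcases h2 with h2 | h2
    · exact ⟨_, (hC e he).2.2 _ (Finset.mem_biUnion.2 ⟨z, hzU, h2⟩) (hC e' he').1, Or.inl rfl⟩
    · exact ⟨_, (hC e he).2.2 _ (Finset.mem_biUnion.2 ⟨z, hzU, h2⟩) (hC e' he').2.1, Or.inr rfl⟩
  have k3 : ∀ e ∈ F', ∀ e' ∈ F', ∀ q ∈ T e, q ∈ T e' →
      ∃ x, (x = e.1 ∨ x = e.2) ∧ (x = e'.1 ∨ x = e'.2) := by
    rintro e he e' he' q ⟨i, hi, hq⟩ ⟨i', hi', hq'⟩
    rcases hm _ _ _ _ q (hw e (hF' he) i hi) (hw e' (hF' he') i' hi') hq hq' with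
      ⟨z, h2, h3⟩ | ⟨z, h2, h3⟩
    · exact k2 e he e' he' i' hi' z h2 (hU2 e i hi z h3)
    · exact (k2 e' he' e he i hi z h2 (hU2 e' i' hi' z h3)).imp fun _ => And.symm
  have hVK : IsVK (SimpleGraph.fromRel fun x y : S => (x.1, y.1) ∈ F') := by
    refine isVK_of_weakDrawing _ (fun x => p x.1) (hp.comp Subtype.val_injective)
      (fun x y => {q | ∃ e ∈ F', (e = (x.1, y.1) ∨ e = (y.1, x.1)) ∧ q ∈ T e})
      (fun x y => by simp only [or_comm]) ?_ ?_ ?_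
    · rintro x y ⟨-, h | h⟩
      · exact (hT _ (hF' h)).mono fun q hq => ⟨_, h, Or.inl rfl, hq⟩
      · exact (hT _ (hF' h)).symm.mono fun q hq => ⟨_, h, Or.inr rfl, hq⟩
    · rintro x y z - hx hy ⟨e, he, rfl | rfl, hq⟩ <;> rcases k1 _ he z.1 z.2 hq with h | h <;>
        first | exact hx (Subtype.ext h) | exact hy (Subtype.ext h)
    · intro x y u v _ _ a1 a2 a3 a4
      refine Set.disjoint_left.2 ?_
      rintro q ⟨e, he, h2, hq⟩ ⟨e', he', h3, hq'⟩
      obtain ⟨z, h4, h5⟩ := k3 e he e' he' q hq hq'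
      have h6 : z = x.1 ∨ z = y.1 := by rcases h2 with rfl | rfl <;> tauto
      have h7 : z = u.1 ∨ z = v.1 := by rcases h3 with rfl | rfl <;> tauto
      rcases h6 with h6 | h6 <;> rcases h7 with h7 | h7
      · exact a1 (Subtype.ext (h7.symm.trans h6))
      · exact a3 (Subtype.ext (h7.symm.trans h6))
      · exact a2 (Subtype.ext (h7.symm.trans h6))
      · exact a4 (Subtype.ext (h7.symm.trans h6))
  have h8 := planar_pairs _ hVK.planar (Finset.univ.filter fun e : S × S => (e.1.1, e.2.1) ∈ F')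
    fun e he => ⟨fun h => (hF _ (hF' (Finset.mem_filter.1 he).2)).2.2.1 (congrArg Subtype.val h),
      Or.inl (Finset.mem_filter.1 he).2⟩
  rw [Fintype.card_coe] at h8
  refine le_trans (Finset.card_le_card_of_surjOn (fun e : S × S => (e.1.1, e.2.1)) ?_) h8
  intro e he
  exact ⟨(⟨e.1, (hC e he).1⟩, ⟨e.2, (hC e he).2.1⟩),
    Finset.mem_coe.2 (Finset.mem_filter.2 ⟨Finset.mem_univ _, he⟩), rfl⟩

end Pool.Agent.Lib.MP_e7c4c5_co.Sub
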