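import Pool.Agent.Lib.MP_e7c4c5_co.Sub.Closure

/-!
Levels: logarithmically many levels such that every vertex reaches few vertices of at least its
own level through vertices of smaller level.
-/

set_option autoImplicit false

namespace Pool.Agent.Lib.MP_e7c4c5_co.Sub

variable {V : Type}

/-- The growth factor of the closure. -/
def cA (K r : ℕ) : ℕ := 2 * (64 * (2 * r + 1) * K * r + 1)

/-- The projection bound of the closure. -/
def cB (K r : ℕ) : ℕ := 64 * (2 * r + 1) * K * (64 * (2 * r + 1) * K * r + 1)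

/-- The degree threshold. -/
def cD (K r : ℕ) : ℕ := 2 * cA K r * (32 * (r + 1) * K * cB K r)

/-- All outside vertices have small projections. -/
def Closed (G : SimpleGraph V) (K r : ℕ) (X : Finset V) : Prop :=
  ∀ z, z ∉ X → {x | Reach G r (X : Set V) z x}.ncard ≤ cB K r

theorem cB_pos {K : ℕ} (hK : 1 ≤ K) (r : ℕ) : 1 ≤ cB K r := by
  unfold cB
  exact Nat.succ_le_of_lt (by positivity)

theorem cB_le_cD {K : ℕ} (hK : 1 ≤ K) (r : ℕ) : cB K r ≤ cD K r := by
  unfold cD
  have h1 : 1 ≤ 2 * cA K r := by unfold cA; omega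
  have h2 : 1 ≤ 32 * (r + 1) * K := Nat.succ_le_of_lt (by positivity)
  calc cB K r = 1 * (1 * cB K r) := by ring
    _ ≤ 2 * cA K r * (32 * (r + 1) * K * cB K r) := by gcongr

theorem pairs_le [Fintype V] {G : SimpleGraph V} {K : ℕ} (hK : 1 ≤ K) (h : Sparse G K) (r : ℕ)
    (X : Finset V) (hX : Closed G K r X) :
    ∑ v ∈ X, {x | Reach G r (X : Set V) v x}.ncard ≤ 32 * (r + 1) * K * cB K r * X.card := by
  classical
  let F : Finset (V × V) := Finset.univ.filter fun e => e.1 ∈ X ∧ Reach G r (X : Set V) e.1 e.2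
  have hF : ∑ v ∈ X, {x | Reach G r (X : Set V) v x}.ncard = F.card := by
    rw [Finset.card_eq_sum_card_fiberwise (f := Prod.fst) (s := F) (t := X)]
    · refine Finset.sum_congr rfl fun v hv => ?_
      rw [← Set.ncard_coe_finset]
      refine Set.ncard_congr (fun x _ => (v, x)) ?_ ?_ ?_
      · intro x hx
        simpa [F, hv] using hx
      · intro a b _ _ hab
        exact (Prod.ext_iff.1 hab).2
      · rintro ⟨a, b⟩ hab
        simp only [F, Finset.coe_filter, Finset.mem_filter, Finset.mem_univ, true_and,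
          Set.mem_ofPred_eq] at hab
        obtain ⟨⟨-, h2⟩, rfl⟩ := hab
        exact ⟨b, h2, rfl⟩
    · intro e he
      simp only [F, Finset.coe_filter, Finset.mem_univ, true_and, Set.mem_ofPred_eq] at he
      exact he.1
  rw [hF]
  let A : V → Finset V := fun z =>
    if z ∈ X then {z} else Finset.univ.filter fun x => Reach G r (X : Set V) z x
  refine h r (cB K r) X F A ?_ ?_ ?_
  · intro z
    by_cases hz : z ∈ X
    · simpa [A, hz] using cB_pos hK r
    · have := hX z hz
      rw [← Set.ncard_coe_finset]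
      simpa [A, hz] using this
  · intro z hz
    simp [A, hz]
  · rintro ⟨a, b⟩ he
    simp only [F, Finset.mem_filter, Finset.mem_univ, true_and] at he
    obtain ⟨ha, hb, hba, w, m, hm, hw, h0, h1, hint⟩ := he
    refine ⟨ha, hb, fun e => hba e.symm, w, m, hm, hw, h0, h1, fun i hi => ?_⟩
    rcases Nat.eq_zero_or_pos i with rfl | hi0
    · left
      simp [A, h0, ha]
    rcases eq_or_lt_of_le hi with rfl | him
    · right
      have hb' : b ∈ X := hb
      simp [A, h1, hb']
    · right
      have hz : w i ∉ X := hint i hi0 him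
      simp only [A, hz, if_false, Finset.mem_filter, Finset.mem_univ, true_and]
      refine ⟨hb, fun e => hz (e ▸ hb), fun j => w (i + j), m - i, by omega, fun j hj => ?_,
        rfl, ?_, fun j hj0 hj => hint _ (by omega) (by omega)⟩
      · exact hw (i + j) (by omega)
      · show w (i + (m - i)) = b
        rw [← h1]; congr 1; omega

theorem level_step [Fintype V] {G : SimpleGraph V} {K : ℕ} (hK : 1 ≤ K) (h : Sparse G K) (r : ℕ)
    (X : Finset V) (hX : Closed G K r X) :
    ∃ X' : Finset V, Closed G K r X' ∧ 2 * X'.card ≤ X.card ∧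
      ∀ v ∈ X, v ∉ X' → {x | Reach G r (X : Set V) v x}.ncard ≤ cD K r := by
  classical
  let Y := X.filter fun v => cD K r < {x | Reach G r (X : Set V) v x}.ncard
  obtain ⟨X', h1, h2, h3⟩ := exists_closure hK h r Y
  refine ⟨X', h3, ?_, fun v hv hv' => ?_⟩
  · have h4 : Y.card * cD K r ≤ 32 * (r + 1) * K * cB K r * X.card := by
      refine le_trans ?_ (pairs_le hK h r X hX)
      calc Y.card * cD K r = ∑ _v ∈ Y, cD K r := by simp
        _ ≤ ∑ v ∈ Y, {x | Reach G r (X : Set V) v x}.ncard :=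
          Finset.sum_le_sum fun v hv => (Finset.mem_filter.1 hv).2.le
        _ ≤ _ := Finset.sum_le_sum_of_subset (Finset.filter_subset _ _)
    have h5 : 0 < 32 * (r + 1) * K * cB K r := by
      have := cB_pos hK r
      positivity
    have h6 : 2 * (cA K r * Y.card) ≤ X.card := by
      refine Nat.le_of_mul_le_mul_left ?_ h5
      calc _ = Y.card * cD K r := by unfold cD; ring
        _ ≤ _ := h4
    have h7 : X'.card ≤ cA K r * Y.card := h2
    omega
  · by_contra hc
    exact hv' (h1 (Finset.mem_filter.2 ⟨hv, not_le.1 hc⟩))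

theorem exists_levels [Fintype V] {G : SimpleGraph V} {K : ℕ} (hK : 1 ≤ K) (h : Sparse G K)
    (r L : ℕ) (hL : Fintype.card V < 2 ^ L) :
    ∃ ℓ : V → ℕ, (∀ v, ℓ v < L) ∧
      ∀ v, {x | Reach G r {u | ℓ v ≤ ℓ u} v x}.ncard ≤ L * cD K r := by
  classical
  choose nxt h1 h2 h3 using level_step hK h r
  let Z : ℕ → {X : Finset V // Closed G K r X} := fun i =>
    Nat.rec ⟨Finset.univ, fun z hz => absurd (Finset.mem_univ z) hz⟩
      (fun _ X => ⟨nxt X.1 X.2, h1 X.1 X.2⟩) i
  have hZ : ∀ i, (Z (i + 1)).1 = nxt (Z i).1 (Z i).2 := fun _ => rfl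
  have hcard : ∀ i, 2 ^ i * (Z i).1.card ≤ Fintype.card V := by
    intro i
    induction i with
    | zero => simpa using Finset.card_le_univ _
    | succ i ih =>
      have := h2 (Z i).1 (Z i).2
      rw [hZ, pow_succ, mul_assoc]
      exact (Nat.mul_le_mul_left _ this).trans ih
  have hempty : ∀ v, v ∉ (Z L).1 := by
    intro v hv
    have h5 : 1 ≤ (Z L).1.card := Finset.card_pos.2 ⟨v, hv⟩
    have h6 := hcard L
    have : 2 ^ L * 1 ≤ 2 ^ L * (Z L).1.card := Nat.mul_le_mul_left _ h5
    omega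
  let ℓ : V → ℕ := fun v => Nat.findGreatest (fun i => v ∈ (Z i).1) L
  have hmem : ∀ v, v ∈ (Z (ℓ v)).1 := fun v =>
    Nat.findGreatest_spec (P := fun i => v ∈ (Z i).1) (Nat.zero_le L) (Finset.mem_univ v)
  have hle : ∀ v, ℓ v ≤ L := fun v => Nat.findGreatest_le L
  have hlt : ∀ v, ℓ v < L := fun v => lt_of_le_of_ne (hle v) fun e => hempty v (e ▸ hmem v)
  have hnot : ∀ v j, ℓ v < j → j ≤ L → v ∉ (Z j).1 := fun v j hj hjL =>
    Nat.findGreatest_is_greatest (P := fun i => v ∈ (Z i).1) hj hjL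
  refine ⟨ℓ, hlt, fun v => ?_⟩
  let T : ℕ → Finset V := fun j =>
    Finset.univ.filter fun x => ℓ v ≤ j ∧ Reach G r ((Z j).1 : Set V) v x
  have hT : ∀ j ∈ Finset.range L, (T j).card ≤ cD K r := by
    intro j hj
    have hjL := Finset.mem_range.1 hj
    rw [← Set.ncard_coe_finset]
    rcases lt_trichotomy j (ℓ v) with hc | hc | hc
    · simp [T, not_le.2 hc]
    · have := h3 (Z j).1 (Z j).2 v (hc ▸ hmem v) (hZ j ▸ hnot v (j + 1) (by omega) (by omega))
      simpa [T, hc.ge] using this
    · have := ((Z j).2 v (hnot v j hc hjL.le)).trans (cB_le_cD hK r)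
      simpa [T, hc.le] using this
  calc {x | Reach G r {u | ℓ v ≤ ℓ u} v x}.ncard
      ≤ (((Finset.range L).biUnion T : Finset V) : Set V).ncard := by
        refine Set.ncard_le_ncard ?_ (Set.toFinite _)
        rintro x ⟨hx, hxv, w, m, hm, hw, h0, hm', hint⟩
        simp only [Finset.coe_biUnion, Finset.coe_range, Set.mem_iUnion, Set.mem_Iio]
        refine ⟨ℓ x, hlt x, ?_⟩
        simp only [T, Finset.coe_filter, Finset.mem_univ, true_and, Set.mem_ofPred_eq]
        refine ⟨hx, hmem x, hxv, w, m, hm, hw, h0, hm', fun i hi0 hi => ?_⟩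
        have h7 : ¬ ℓ v ≤ ℓ (w i) := hint i hi0 hi
        have h8 : ℓ v ≤ ℓ x := hx
        exact hnot _ _ (by omega) (hle x)
    _ ≤ L * cD K r := by
        rw [Set.ncard_coe_finset]
        refine (Finset.card_biUnion_le_card_mul _ _ _ hT).trans ?_
        simp

end Pool.Agent.Lib.MP_e7c4c5_co.Sub
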