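import Pool.Agent.Lib.MP_e7c4c5_co.Sub.Core
import Pool.Agent.Lib.MP_e7c4c5_co.Sub.Level

/-!
The bound for graphs with the sparsity property.
-/

set_option autoImplicit false

namespace Pool.Agent.Lib.MP_e7c4c5_co.Sub

variable {V : Type}

theorem cD_le {K u : ℕ} (hK : 1 ≤ K) (hu : 2 ≤ u) : cD K (2 * u ^ 2) ≤ u ^ 48 * K ^ 4 := by
  have h0 : 1 ≤ u ^ 2 := Nat.one_le_pow _ _ (by omega)
  have h1 : 2 * (2 * u ^ 2) + 1 ≤ 5 * u ^ 2 := by omega
  have h2 : 2 * u ^ 2 + 1 ≤ 3 * u ^ 2 := by omega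
  have h3 : 64 * (2 * (2 * u ^ 2) + 1) * K ≤ 320 * u ^ 2 * K := by
    calc _ ≤ 64 * (5 * u ^ 2) * K := by gcongr
      _ = _ := by ring
  have h4 : 64 * (2 * (2 * u ^ 2) + 1) * K * (2 * u ^ 2) + 1 ≤ 641 * (u ^ 4 * K) := by
    have h5 : 1 ≤ u ^ 4 * K := Nat.succ_le_of_lt (by positivity)
    calc _ ≤ 320 * u ^ 2 * K * (2 * u ^ 2) + u ^ 4 * K := by gcongr
      _ = _ := by ring
  have h6 : 2 ^ 36 ≤ u ^ 36 := Nat.pow_le_pow_left hu _
  unfold cD cA cB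
  calc _ ≤ 2 * (2 * (641 * (u ^ 4 * K))) *
        (32 * (3 * u ^ 2) * K * (320 * u ^ 2 * K * (641 * (u ^ 4 * K)))) := by gcongr
    _ = 50489057280 * (u ^ 12 * K ^ 4) := by ring
    _ ≤ u ^ 36 * (u ^ 12 * K ^ 4) := by
      gcongr
      exact le_trans (by norm_num) h6
    _ = _ := by ring

theorem cD_pos {K : ℕ} (hK : 1 ≤ K) (r : ℕ) : 0 < cD K r :=
  (cB_pos hK r).trans (cB_le_cD hK r)

theorem main_seq [Fintype V] {G : SimpleGraph V} {K : ℕ} (hK : 1 ≤ K) (h : Sparse G K) :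
    ∃ c : V → Fin (K ^ 308 * 2 ^ (308 * (Nat.sqrt (Nat.log 2 (Fintype.card V)) + 1))),
      ∀ (t : ℕ) (w : ℕ → V), 0 < t → (∀ j, j + 1 < 2 * t → G.Adj (w j) (w (j + 1))) →
        (∀ i < 2 * t, ∀ j < 2 * t, w i = w j → i = j) → ∃ i < t, c (w i) ≠ c (w (t + i)) := by
  set s := Nat.sqrt (Nat.log 2 (Fintype.card V)) + 1 with hs
  have hn : Fintype.card V < 2 ^ (s ^ 2) :=
    (Nat.lt_pow_succ_log_self (by norm_num) _).trans_le
      (Nat.pow_le_pow_right (by norm_num) (Nat.lt_succ_sqrt' _))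
  obtain ⟨ℓ, hℓ, hD⟩ := exists_levels hK h (2 * 4 ^ s) (s ^ 2) hn
  have hs1 : 1 ≤ s := by omega
  set M := s ^ 2 * cD K (2 * 4 ^ s) with hM
  have hM0 : 0 < M := Nat.mul_pos (by positivity) (cD_pos hK _)
  obtain ⟨ψ, φ, hc⟩ := core G s M (4 ^ s * M ^ 2) hM0 ℓ hD (by
    calc (Fintype.card V * M ^ s) ^ 2 < (2 ^ (s ^ 2) * M ^ s) ^ 2 := by gcongr
      _ = (4 ^ s * M ^ 2) ^ s * 1 := by
        clear_value M s
        rw [show (4 : ℕ) = 2 ^ 2 by norm_num]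
        simp only [mul_pow, ← pow_mul]
        ring
      _ ≤ (4 ^ s * M ^ 2) ^ s * (4 ^ s * M ^ 2) := by
        gcongr
        exact Nat.succ_le_of_lt (by positivity)
      _ = _ := by ring)
  have hu : 2 ≤ 2 ^ s := by
    calc 2 = 2 ^ 1 := rfl
      _ ≤ 2 ^ s := Nat.pow_le_pow_right (by norm_num) hs1
  have h4 : 4 ^ s = (2 ^ s) ^ 2 := by rw [← pow_mul, mul_comm, pow_mul]; norm_num
  have hsu : s ≤ 2 ^ s := Nat.lt_two_pow_self.le
  have hcard : Fintype.card (Fin (s ^ 2) × Fin (10 * M ^ 4) × Fin (4 ^ s * M ^ 2)) ≤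
      Fintype.card (Fin (K ^ 308 * 2 ^ (308 * s))) := by
    simp only [Fintype.card_prod, Fintype.card_fin]
    rw [mul_comm 308 s, pow_mul]
    have h5 := cD_le hK hu
    rw [← h4] at h5
    rw [h4]
    generalize 2 ^ s = u at *
    have h6 : M ≤ u ^ 2 * (u ^ 48 * K ^ 4) := by rw [hM]; gcongr
    have h7 : 10 ≤ u ^ 4 := le_trans (by norm_num) (Nat.pow_le_pow_left hu 4)
    calc s ^ 2 * (10 * M ^ 4 * (u ^ 2 * M ^ 2))
        ≤ u ^ 2 * (u ^ 4 * (u ^ 2 * (u ^ 48 * K ^ 4)) ^ 4 *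
          (u ^ 2 * (u ^ 2 * (u ^ 48 * K ^ 4)) ^ 2)) := by gcongr
      _ = K ^ 24 * u ^ 308 := by ring
      _ ≤ K ^ 308 * u ^ 308 := by gcongr; norm_num
  obtain ⟨e⟩ := Function.Embedding.nonempty_of_card_le hcard
  refine ⟨fun v => e (⟨ℓ v, hℓ v⟩, ψ v, φ v), fun t w ht hw hinj => ?_⟩
  obtain ⟨i, hi, hne⟩ := hc t w ht hw hinj
  refine ⟨i, hi, fun h' => hne ?_⟩
  have := e.injective h'
  simpa [Prod.ext_iff, Fin.ext_iff] using this

theorem walk_of_seq {G : SimpleGraph V} {α : Type} (c : V → α)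
    (h : ∀ (t : ℕ) (w : ℕ → V), 0 < t → (∀ j, j + 1 < 2 * t → G.Adj (w j) (w (j + 1))) →
        (∀ i < 2 * t, ∀ j < 2 * t, w i = w j → i = j) → ∃ i < t, c (w i) ≠ c (w (t + i)))
    (a b : V) (P : G.Walk a b) (hP : P.IsPath) (n : ℕ) (hn : 0 < n)
    (hl : P.support.length = 2 * n) : (P.support.take n).map c ≠ (P.support.drop n).map c := by
  intro e
  have hl' : P.length + 1 = 2 * n := by rw [← hl, P.length_support]
  obtain ⟨i, hi, hne⟩ := h n P.getVert hn (fun j hj => P.adj_getVert_succ (by omega))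
    fun i hi j hj e => hP.getVert_injOn (show i ≤ P.length by omega) (show j ≤ P.length by omega) e
  apply hne
  have e1 := congrArg (fun l => l[i]?) e
  simp only [List.getElem?_map, List.getElem?_drop, List.getElem?_take, hi, if_true] at e1
  rw [← P.getVert_eq_support_getElem? (by omega), ← P.getVert_eq_support_getElem? (by omega)] at e1
  simpa using e1

end Pool.Agent.Lib.MP_e7c4c5_co.Sub
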